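import Pool.Agent.Helper96.AL.L2

/-!
PROJECT AL, piece L4. Basic relations in the field data (all by applying the injective `ι`).

`sig_pow`: `ι ((σ^j) f) * z^j = z^j * ι f`. `sig_p`: `σ^p = 1` since `z^p` is central.
`t_m`: `t^m = 1`. `t_sig`: `t (σ f) = (σ^k) (t f)`: `τ z * (z^k)⁻¹` commutes with `u` (deg_comm, as
`u τ(z) = ζ^k τ(z) u`), say `τ z = ι c * z^k`; apply `τ` to `hσ` and use commutativity of `M`.
`sig_fix`: `σ f = f` iff `ι f` is central. `U`: with `ι U = u`, `(σ^j) U * ζ'^j = U` where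
`ι ζ' = ζ`; in particular `σ^j ≠ 1` for `0 < j < p` and `(σ^k)^j ≠ 1` (`k` is prime to `p`).
`t_pow_ne`: `t^j ≠ 1` for `0 < j < m` (look at `ζ`: `τ^j ζ = ζ^(k^j)`, `k^j ≠ 1` mod `p`).
`pow_p`: `(ι f * z)^n = ι (∏_{l<n} (σ^l) f) * z^n`, and for `n = p`, `z^k` in place of `z`:
`(ι f * z^k)^p = ι (∏_{l<p} (σ^l) f) * z^(k p)` (reindex the product by `l ↦ k l` mod `p`).
-/

namespace Pool.Agent.Helper96.AL

variable {p m k : ℕ} {A : Type*} [DivisionRing A] {τ : A ≃+* A} {ζ u z : A}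
  {M : Type*} [Field M] {ι : M →+* A} {σ t : M ≃+* M}

private theorem l4_zj (h : FD p m k τ ζ u z ι σ t) (j : ℕ) : z ^ j ≠ 0 := pow_ne_zero j h.z0

private theorem l4_kne (h : FD p m k τ ζ u z ι σ t) : (k : ZMod p) ≠ 0 := by
  intro h0
  have h1 := h.ad.hk
  have hf : Fact p.Prime := ⟨h.ad.hp⟩
  rw [h0, zero_pow h.ad.hm.ne'] at h1
  exact zero_ne_one h1

private theorem l4_zeta (h : FD p m k τ ζ u z ι σ t) (n : ℕ) (hn : ζ ^ n = 1) :
    (n : ZMod p) = 0 := by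
  have h1 : orderOf ζ ∣ n := orderOf_dvd_of_pow_eq_one hn
  rw [l1_ord h.ad] at h1
  exact (ZMod.natCast_eq_zero_iff n p).2 h1

private theorem l4_zeta0 (h : FD p m k τ ζ u z ι σ t) : ζ ≠ 0 := l1_z0 h.ad

theorem sig_pow (h : FD p m k τ ζ u z ι σ t) (j : ℕ) (f : M) :
    ι ((σ ^ j) f) * z ^ j = z ^ j * ι f := by
  induction j with
  | zero => simp
  | succ j ih =>
    have h1 : (σ ^ (j + 1)) f = σ ((σ ^ j) f) := by
      rw [pow_succ']
      rfl
    rw [h1, pow_succ', ← mul_assoc, h.hσ, mul_assoc, ih, mul_assoc]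

theorem sig_p (h : FD p m k τ ζ u z ι σ t) : σ ^ p = 1 := by
  apply RingEquiv.ext
  intro f
  have h1 := sig_pow h p f
  rw [zpow_central h.ad h.z0 h.hz (ι f)] at h1
  exact ι.injective (mul_right_cancel₀ (l4_zj h p) h1)

private theorem l4_t (h : FD p m k τ ζ u z ι σ t) (j : ℕ) (f : M) :
    ι ((t ^ j) f) = (τ ^ j) (ι f) := by
  induction j with
  | zero => simp
  | succ j ih =>
    have h1 : (t ^ (j + 1)) f = t ((t ^ j) f) := by
      rw [pow_succ']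
      rfl
    have h2 : (τ ^ (j + 1)) (ι f) = τ ((τ ^ j) (ι f)) := by
      rw [pow_succ']
      rfl
    rw [h1, h2, h.ht, ih]

theorem t_m (h : FD p m k τ ζ u z ι σ t) : t ^ m = 1 := by
  apply RingEquiv.ext
  intro f
  apply ι.injective
  rw [l4_t h, h.ad.τm]
  rfl

theorem t_sig (h : FD p m k τ ζ u z ι σ t) (f : M) : t (σ f) = (σ ^ k) (t f) := by
  have hw : u * τ z = ζ ^ k * τ z * u := by
    have h1 : τ (u * z) = τ (ζ * z * u) := by rw [h.hz]
    rw [map_mul, map_mul, map_mul, h.ad.τu, h.ad.τζ] at h1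
    exact h1
  obtain ⟨c, hc⟩ := (h.rng _).1 (deg_comm h.ad h.z0 h.hz hw)
  have hz : τ z = ι c * z ^ k := by
    rw [hc, mul_assoc, inv_mul_cancel₀ (l4_zj h k), mul_one]
  have hτz : τ z ≠ 0 := by
    intro h0
    apply h.z0
    apply τ.injective
    rw [h0, map_zero]
  have hc0 : ι c ≠ 0 := by
    intro h0
    apply hτz
    rw [hz, h0, zero_mul]
  have h2 : τ (ι (σ f) * z) = τ (z * ι f) := by rw [h.hσ]
  rw [map_mul, map_mul, ← h.ht, ← h.ht, hz, mul_assoc, ← sig_pow h k (t f), ← mul_assoc,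
    ← mul_assoc] at h2
  have h3 := mul_right_cancel₀ (l4_zj h k) h2
  rw [← map_mul, ← map_mul, mul_comm] at h3
  have h4 := ι.injective h3
  have hc1 : c ≠ 0 := by
    intro h0
    apply hc0
    rw [h0, map_zero]
  exact mul_left_cancel₀ hc1 h4

theorem sig_fix (h : FD p m k τ ζ u z ι σ t) (f : M) : σ f = f ↔ Cen (ι f) := by
  constructor
  · intro h1
    have h2 := h.hσ f
    rw [h1] at h2
    exact central_of_comm h.ad h.z0 h.hz ((h.rng _).2 ⟨f, rfl⟩) h2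
  · intro h1
    have h2 := h.hσ f
    rw [← h1 z] at h2
    exact ι.injective (mul_right_cancel₀ h.z0 h2)

theorem exists_U (h : FD p m k τ ζ u z ι σ t) :
    ∃ U ζ' : M, ι U = u ∧ ι ζ' = ζ ∧ U ≠ 0 ∧ t U = U ∧ σ ζ' = ζ' ∧
      ∀ j : ℕ, (σ ^ j) U * ζ' ^ j = U := by
  obtain ⟨U, hU⟩ := (h.rng u).1 rfl
  obtain ⟨ζ', hζ'⟩ := (h.rng ζ).1 (h.ad.ζc u)
  refine ⟨U, ζ', hU, hζ', ?_, ?_, ?_, ?_⟩
  · intro h0
    apply h.ad.u0
    rw [← hU, h0, map_zero]
  · apply ι.injective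
    rw [h.ht, hU, h.ad.τu]
  · rw [sig_fix h, hζ']
    exact h.ad.ζc
  · intro j
    apply ι.injective
    rw [map_mul, map_pow, hζ', hU]
    apply mul_right_cancel₀ (l4_zj h j)
    have hcen : Cen (ζ ^ j) := l1_cenpow h.ad.ζc j
    rw [← hcen, mul_assoc, sig_pow h j U, hU, pow_deg h.ad h.hz j, mul_assoc]

theorem sig_k_ne (h : FD p m k τ ζ u z ι σ t) (j : ℕ) (hj : 0 < j) (hjp : j < p) :
    (σ ^ k) ^ j ≠ 1 := by
  intro h1
  obtain ⟨U, ζ', hU, hζ', hU0, -, -, hs⟩ := exists_U h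
  rw [← pow_mul] at h1
  have h2 := hs (k * j)
  rw [h1] at h2
  have h3 : ζ' ^ (k * j) = 1 := by
    have h4 : U * ζ' ^ (k * j) = U * 1 := by
      rw [mul_one]
      exact h2
    exact mul_left_cancel₀ hU0 h4
  have h5 : ζ ^ (k * j) = 1 := by
    rw [← hζ', ← map_pow, h3, map_one]
  have h6 := l4_zeta h _ h5
  have hf : Fact p.Prime := ⟨h.ad.hp⟩
  rw [Nat.cast_mul] at h6
  rcases mul_eq_zero.1 h6 with h7 | h7
  · exact l4_kne h h7
  · rw [ZMod.natCast_eq_zero_iff] at h7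
    exact absurd (Nat.le_of_dvd hj h7) (not_le.2 hjp)

theorem t_pow_ne (h : FD p m k τ ζ u z ι σ t) (j : ℕ) (hj : 0 < j) (hjm : j < m) :
    t ^ j ≠ 1 := by
  intro h1
  obtain ⟨U, ζ', hU, hζ', hU0, -, -, hs⟩ := exists_U h
  have h2 : ∀ i : ℕ, (τ ^ i) ζ = ζ ^ (k ^ i) := by
    intro i
    induction i with
    | zero => simp
    | succ i ih =>
      have h3 : (τ ^ (i + 1)) ζ = τ ((τ ^ i) ζ) := by
        rw [pow_succ']
        rfl
      rw [h3, ih, map_pow, h.ad.τζ, ← pow_mul, pow_succ, mul_comm k]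
  have h3 : ζ ^ (k ^ j) = ζ := by
    rw [← h2 j, ← hζ', ← l4_t h, h1]
    rfl
  have hf : Fact p.Prime := ⟨h.ad.hp⟩
  have hpos : 0 < k ^ j := by
    apply Nat.pos_of_ne_zero
    intro h4
    have h5 := Nat.pow_eq_zero.1 h4
    apply l4_kne h
    rw [h5.1, Nat.cast_zero]
  obtain ⟨n, hn⟩ := Nat.exists_eq_succ_of_ne_zero hpos.ne'
  have h4 : ζ ^ n = 1 := by
    rw [hn, Nat.succ_eq_add_one, pow_succ] at h3
    apply mul_right_cancel₀ (l4_zeta0 h)
    rw [one_mul]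
    exact h3
  have h5 := l4_zeta h n h4
  apply h.ad.hkj j hj hjm
  rw [← Nat.cast_pow, hn, Nat.succ_eq_add_one, Nat.cast_add, h5, zero_add, Nat.cast_one]

theorem mul_pow_n (h : FD p m k τ ζ u z ι σ t) (f : M) (n : ℕ) :
    (ι f * z) ^ n = ι (∏ l ∈ Finset.range n, (σ ^ l) f) * z ^ n := by
  induction n with
  | zero => simp
  | succ n ih =>
    rw [pow_succ, ih, Finset.prod_range_succ, map_mul, pow_succ, mul_assoc, ← mul_assoc (z ^ n),
      ← sig_pow h n f]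
    simp only [mul_assoc]

private theorem l4_mulk (h : FD p m k τ ζ u z ι σ t) (f : M) (n : ℕ) :
    (ι f * z ^ k) ^ n = ι (∏ l ∈ Finset.range n, (σ ^ (k * l)) f) * z ^ (k * n) := by
  induction n with
  | zero => simp
  | succ n ih =>
    rw [pow_succ, ih, Finset.prod_range_succ, map_mul, mul_add k n 1, mul_one, pow_add,
      mul_assoc, ← mul_assoc (z ^ (k * n)), ← sig_pow h (k * n) f]
    simp only [mul_assoc]

theorem mul_pow_k (h : FD p m k τ ζ u z ι σ t) (f : M) :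
    (ι f * z ^ k) ^ p = ι (∏ l ∈ Finset.range p, (σ ^ l) f) * z ^ (k * p) := by
  rw [l4_mulk h]
  congr 2
  have hf : Fact p.Prime := ⟨h.ad.hp⟩
  have hmaps : ∀ l ∈ Finset.range p, k * l % p ∈ Finset.range p := fun l _ =>
    Finset.mem_range.2 (Nat.mod_lt _ h.ad.hp.pos)
  have hinj : Set.InjOn (fun l => k * l % p) (Finset.range p : Set ℕ) := by
    intro a ha b hb hab
    rw [Finset.mem_coe, Finset.mem_range] at ha hb
    have h1 : ((k * a : ℕ) : ZMod p) = ((k * b : ℕ) : ZMod p) :=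
      (ZMod.natCast_eq_natCast_iff' _ _ _).2 hab
    rw [Nat.cast_mul, Nat.cast_mul] at h1
    have h2 := mul_left_cancel₀ (l4_kne h) h1
    rw [ZMod.natCast_eq_natCast_iff', Nat.mod_eq_of_lt ha, Nat.mod_eq_of_lt hb] at h2
    exact h2
  refine Finset.prod_nbij (fun l => k * l % p) hmaps hinj ?_ ?_
  · exact Finset.surjOn_of_injOn_of_card_le _ (fun l hl => Finset.mem_coe.2 (hmaps l hl)) hinj le_rfl
  · intro l _
    have h1 : σ ^ (k * l) = σ ^ (k * l % p) := by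
      conv_lhs => rw [← Nat.div_add_mod (k * l) p, pow_add, pow_mul, sig_p h, one_pow, one_mul]
    rw [h1]

end Pool.Agent.Helper96.AL
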