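import Pool.Agent.Helper96.AL.L3
import Pool.Agent.Helper96.AL.L4

/-!
PROJECT AL, piece L8. The norm `G = ∏_{j<m} (t^j) g` can be made central.

Proof. Induction: `(τ^j) Z = ι (d_j) * ι (g_j) * Z^(k^j) * (ι g_j)⁻¹`, `g_0 = 1`,
`g_(j+1) = g * t (g_j)` (so `g_j = ∏_{i<j} (t^i) g`), `σ d_j = d_j` (`t` preserves the fixed field
of `σ` by t_sig). At `j = m`: `τ^m = 1`, `k^m = 1 + p r`, `Z^p = ι b` with `σ b = b`: so
`(ι G)⁻¹ * Z * ι G = ι e * Z` with `σ e = e`, i.e. `σ G = e G`; applying `σ` `p` times `e^p = 1`, so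
`ι e = ζ^i` (root, sig_fix). With `ι U = u`, `ι ζ' = ζ` (exists_U): `σ U * ζ' = U`. Choose `n` with
`n m = i` mod `p` and put `g' = g * U^n`: `G' = G * U^(n m)` (`t U = U`), `σ G' = G'`. And
`ι g' * Z^k * (ι g')⁻¹ = ζ^(n k) * ι g * Z^k * (ι g)⁻¹` (`u^n Z^k u^(-n) = ζ^(n k) Z^k`), so `d' = d *
(ζ'^(n k))⁻¹`. Finally `t G' = G'` because `t^m = 1`.
-/

namespace Pool.Agent.Helper96.AL

variable {p m k : ℕ} {A : Type*} [DivisionRing A] {τ : A ≃+* A} {ζ u Z : A}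
  {M : Type*} [Field M] {ι : M →+* A} {σ t : M ≃+* M}

theorem l8_conj_pow {x : A} (hx : x ≠ 0) (y : A) (n : ℕ) :
    (x * y * x⁻¹) ^ n = x * y ^ n * x⁻¹ := by
  induction n with
  | zero => simp [hx]
  | succ n ih =>
    rw [pow_succ, ih, pow_succ]
    simp only [mul_assoc]
    rw [inv_mul_cancel_left₀ hx]

theorem l8_cen_t (h : FD p m k τ ζ u Z ι σ t) {f : M} (hf : σ f = f) : σ (t f) = t f := by
  rw [sig_fix h] at hf ⊢
  intro b
  rw [h.ht]
  have h1 := congrArg τ (hf (τ.symm b))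
  rwa [map_mul, map_mul, τ.apply_symm_apply] at h1

theorem l8_ind (h : FD p m k τ ζ u Z ι σ t) {g d : M} (hg : g ≠ 0)
    (hσd : σ d = d) (hZ : τ Z = ι d * ι g * Z ^ k * (ι g)⁻¹) (j : ℕ) :
    ∃ dj : M, σ dj = dj ∧ (τ ^ j) Z = ι dj * ι (∏ i ∈ Finset.range j, (t ^ i) g) *
      Z ^ (k ^ j) * (ι (∏ i ∈ Finset.range j, (t ^ i) g))⁻¹ := by
  induction j with
  | zero =>
    refine ⟨1, by simp, ?_⟩
    simp
  | succ j ih =>
    obtain ⟨dj, h1, h2⟩ := ih
    set G := ∏ i ∈ Finset.range j, (t ^ i) g with hG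
    have hG' : ∏ i ∈ Finset.range (j + 1), (t ^ i) g = t G * g := by
      rw [Finset.prod_range_succ', hG, map_prod]
      congr 1
      refine Finset.prod_congr rfl fun i _ => ?_
      rw [pow_succ']
      rfl
    have hιg : ι g ≠ 0 := by
      rw [ne_eq, map_eq_zero]
      exact hg
    have hcd : Cen (ι d) := (sig_fix h d).1 hσd
    have hpow : ∀ n : ℕ, (τ Z) ^ n = ι (d ^ n) * (ι g * Z ^ (k * n) * (ι g)⁻¹) := by
      intro n
      have e1 : τ Z = ι d * (ι g * Z ^ k * (ι g)⁻¹) := by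
        rw [hZ]
        simp only [mul_assoc]
      have hcomm : Commute (ι d) (ι g * Z ^ k * (ι g)⁻¹) := hcd _
      rw [e1, hcomm.mul_pow, l8_conj_pow hιg, map_pow, pow_mul]
    refine ⟨t dj * d ^ (k ^ j), ?_, ?_⟩
    · rw [map_mul, map_pow, hσd, l8_cen_t h h1]
    · have e2 : (τ ^ (j + 1)) Z = τ ((τ ^ j) Z) := by
        rw [pow_succ']
        rfl
      have hcdn : Cen (ι (d ^ (k ^ j))) := (sig_fix h _).1 (by rw [map_pow, hσd])
      rw [e2, h2, hG']
      simp only [map_mul, map_pow τ Z, map_inv₀, ← h.ht]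
      rw [hpow]
      have e3 : ι (t G) * (ι (d ^ k ^ j) * (ι g * Z ^ (k * k ^ j) * (ι g)⁻¹)) =
          ι (d ^ k ^ j) * (ι (t G) * ι g * Z ^ (k ^ (j + 1)) * (ι g)⁻¹) := by
        rw [← mul_assoc, ← hcdn, pow_succ' k j]
        simp only [mul_assoc]
      have e4 : ι (t dj) * ι (t G) * (ι (d ^ k ^ j) * (ι g * Z ^ (k * k ^ j) * (ι g)⁻¹)) *
          (ι (t G))⁻¹ = ι (t dj) * (ι (t G) * (ι (d ^ k ^ j) *
          (ι g * Z ^ (k * k ^ j) * (ι g)⁻¹))) * (ι (t G))⁻¹ := by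
        simp only [mul_assoc]
      rw [e4, e3, mul_inv_rev]
      simp only [mul_assoc]

theorem exists_central_norm (h : FD p m k τ ζ u Z ι σ t) {g d : M} (hg : g ≠ 0) (hd : d ≠ 0)
    (hσd : σ d = d) (hZ : τ Z = ι d * ι g * Z ^ k * (ι g)⁻¹) :
    ∃ g' d' : M, g' ≠ 0 ∧ d' ≠ 0 ∧ σ d' = d' ∧ τ Z = ι d' * ι g' * Z ^ k * (ι g')⁻¹ ∧
      σ (∏ j ∈ Finset.range m, (t ^ j) g') = ∏ j ∈ Finset.range m, (t ^ j) g' := by
  have hιi : Function.Injective ι := ι.injective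
  have hιg : ι g ≠ 0 := by
    rw [ne_eq, map_eq_zero]
    exact hg
  obtain ⟨U, ζ', hU, hζ', hU0, htU, hσζ, hσU⟩ := exists_U h
  have hcz : Cen (Z ^ p) := zpow_central h.ad h.z0 h.hz
  obtain ⟨b, hb⟩ := (h.rng (Z ^ p)).1 (hcz u)
  have hσb : σ b = b := by
    rw [sig_fix h, hb]
    exact hcz
  obtain ⟨dm, hσdm, hind⟩ := l8_ind h hg hσd hZ m
  set G := ∏ i ∈ Finset.range m, (t ^ i) g with hG
  have hG0 : G ≠ 0 := by
    rw [hG, Finset.prod_ne_zero_iff]
    intro i _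
    rw [ne_eq, map_eq_zero_iff _ (t ^ i).injective]
    exact hg
  have hιG : ι G ≠ 0 := by
    rw [ne_eq, map_eq_zero]
    exact hG0
  have hζ0 : ζ ≠ 0 := by
    intro h0
    have h1 := h.ad.ζp
    rw [h0, zero_pow h.ad.hp.ne_zero] at h1
    exact zero_ne_one h1
  have hζ'0 : ζ' ≠ 0 := by
    intro h0
    rw [h0, map_zero] at hζ'
    exact hζ0 hζ'.symm
  have hζ'p : ζ' ^ p = 1 := by
    apply hιi
    rw [map_pow, hζ', h.ad.ζp, map_one]
  -- the exponent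
  have hkm : ∃ r : ℕ, k ^ m = 1 + p * r := by
    have h1 : ((k ^ m : ℕ) : ZMod p) = ((1 : ℕ) : ZMod p) := by
      push_cast
      exact h.ad.hk
    rw [ZMod.natCast_eq_natCast_iff] at h1
    have h2 : k ^ m % p = 1 := by
      have h3 : k ^ m % p = 1 % p := h1
      rwa [Nat.mod_eq_of_lt h.ad.hp.one_lt] at h3
    refine ⟨k ^ m / p, ?_⟩
    have h4 := Nat.mod_add_div (k ^ m) p
    omega
  obtain ⟨r, hr⟩ := hkm
  have hcdm : Cen (ι dm) := (sig_fix h dm).1 hσdm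
  have hbr : Cen (ι (b ^ r)) := (sig_fix h _).1 (by rw [map_pow, hσb])
  have hZpow : Z ^ (k ^ m) = ι (b ^ r) * Z := by
    rw [hr, pow_add, pow_one, pow_mul, ← hb, ← map_pow]
    exact (hbr Z).symm
  have hσG : σ G = (dm * b ^ r) * G := by
    rw [h.ad.τm, hZpow] at hind
    -- Z * ι G = ι (dm * b ^ r) * ι G * Z
    have h1 : Z * ι G = ι dm * ι G * (ι (b ^ r) * Z) := by
      calc Z * ι G = (ι dm * ι G * (ι (b ^ r) * Z) * (ι G)⁻¹) * ι G := by rw [← hind]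
        _ = ι dm * ι G * (ι (b ^ r) * Z) := by
          rw [mul_assoc _ (ι G)⁻¹, inv_mul_cancel₀ hιG, mul_one]
    have h2 : ι (σ G) * Z = ι ((dm * b ^ r) * G) * Z := by
      rw [h.hσ, h1, map_mul, map_mul]
      calc ι dm * ι G * (ι (b ^ r) * Z) = ι dm * (ι G * ι (b ^ r)) * Z := by
            simp only [mul_assoc]
        _ = ι dm * (ι (b ^ r) * ι G) * Z := by rw [← hbr]
        _ = _ := by simp only [mul_assoc]
    exact hιi (mul_right_cancel₀ h.z0 h2)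
  set e := dm * b ^ r with he
  have hσe : σ e = e := by
    rw [he, map_mul, map_pow, hσdm, hσb]
  have hσjG : ∀ j : ℕ, (σ ^ j) G = e ^ j * G := by
    intro j
    induction j with
    | zero => simp
    | succ j ih =>
      have e1 : (σ ^ (j + 1)) G = σ ((σ ^ j) G) := by
        rw [pow_succ']
        rfl
      rw [e1, ih, map_mul, map_pow, hσe, hσG, pow_succ]
      ring
  have hep : e ^ p = 1 := by
    have h1 := hσjG p
    rw [sig_p h] at h1
    have h2 : (1 : M) * G = e ^ p * G := by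
      rw [one_mul]
      exact h1
    exact (mul_right_cancel₀ hG0 h2).symm
  obtain ⟨i, hip, hi⟩ := root h.ad ((sig_fix h e).1 hσe) (by rw [← map_pow, hep, map_one])
  have hei : e = ζ' ^ i := by
    apply hιi
    rw [hi, map_pow, hζ']
  -- choose n with n m = i mod p
  have hn : ∃ n : ℕ, ζ' ^ (n * m) = ζ' ^ i := by
    have hcop : Nat.Coprime m p := by
      refine Nat.Coprime.symm ((Nat.Prime.coprime_iff_not_dvd h.ad.hp).2 ?_)
      intro hd'
      exact absurd (Nat.le_of_dvd h.ad.hm hd') (not_le.2 h.ad.hmp)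
    obtain ⟨a, ha⟩ := Nat.exists_mul_mod_eq_one_of_coprime hcop h.ad.hp.one_lt
    refine ⟨a * i, ?_⟩
    have h1 : a * i * m = p * (m * a / p * i) + i := by
      have h2 := Nat.mod_add_div (m * a) p
      rw [ha.2] at h2
      calc a * i * m = (m * a) * i := by ring
        _ = (1 + p * (m * a / p)) * i := by rw [h2]
        _ = p * (m * a / p * i) + i := by ring
    rw [h1, pow_add, pow_mul, hζ'p, one_pow, one_mul]
  obtain ⟨n, hn⟩ := hn
  have hσU1 : σ U * ζ' = U := by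
    have h1 := hσU 1
    rwa [pow_one, pow_one] at h1
  have htjU : ∀ j : ℕ, (t ^ j) U = U := by
    intro j
    induction j with
    | zero => simp
    | succ j ih =>
      have e1 : (t ^ (j + 1)) U = t ((t ^ j) U) := by
        rw [pow_succ']
        rfl
      rw [e1, ih, htU]
  have hG' : ∏ j ∈ Finset.range m, (t ^ j) (g * U ^ n) = G * U ^ (n * m) := by
    rw [hG]
    simp only [map_mul, map_pow, htjU]
    rw [Finset.prod_mul_distrib, Finset.prod_const, Finset.card_range, ← pow_mul]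
  have hζc : Cen ζ := h.ad.ζc
  have hu0 := h.ad.u0
  have hun : ∀ n : ℕ, u ^ n * Z ^ k = ζ ^ (n * k) * Z ^ k * u ^ n := by
    intro n
    induction n with
    | zero => simp
    | succ n ih =>
      have hc : Commute (ζ ^ (n * k)) u := (show Commute ζ u from hζc u).pow_left _
      calc u ^ (n + 1) * Z ^ k = u * (u ^ n * Z ^ k) := by rw [pow_succ', mul_assoc]
        _ = (u * ζ ^ (n * k)) * (Z ^ k * u ^ n) := by rw [ih]; simp only [mul_assoc]
        _ = ζ ^ (n * k) * (u * Z ^ k) * u ^ n := by rw [← hc.eq]; simp only [mul_assoc]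
        _ = ζ ^ (n * k) * (ζ ^ k * Z ^ k * u) * u ^ n := by rw [pow_deg h.ad h.hz k]
        _ = ζ ^ ((n + 1) * k) * Z ^ k * u ^ (n + 1) := by
          rw [add_mul, one_mul, pow_add, pow_succ' u n]
          simp only [mul_assoc]
  refine ⟨g * U ^ n, d * (ζ' ^ (n * k))⁻¹, mul_ne_zero hg (pow_ne_zero _ hU0),
    mul_ne_zero hd (inv_ne_zero (pow_ne_zero _ hζ'0)), ?_, ?_, ?_⟩
  · rw [map_mul, map_inv₀, map_pow, hσd, hσζ]
  · have hcζ : Cen (ζ ^ (n * k)) := fun b =>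
      ((show Commute ζ b from hζc b).pow_left (n * k)).eq
    have hζn0 : ζ ^ (n * k) ≠ 0 := pow_ne_zero _ hζ0
    have hun0 : u ^ n ≠ 0 := pow_ne_zero _ hu0
    have e1 : u ^ n * Z ^ k * (u ^ n)⁻¹ = ζ ^ (n * k) * Z ^ k := by
      rw [hun n, mul_assoc, mul_inv_cancel₀ hun0, mul_one]
    rw [hZ]
    simp only [map_mul, map_inv₀, map_pow, hU, hζ', mul_inv_rev]
    have e2 : ι d * (ζ ^ (n * k))⁻¹ * (ι g * u ^ n) * Z ^ k * ((u ^ n)⁻¹ * (ι g)⁻¹) =
        ι d * ((ζ ^ (n * k))⁻¹ * (ι g * (u ^ n * Z ^ k * (u ^ n)⁻¹))) * (ι g)⁻¹ := by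
      simp only [mul_assoc]
    rw [e2, e1]
    have e3 : ι g * (ζ ^ (n * k) * Z ^ k) = ζ ^ (n * k) * (ι g * Z ^ k) := by
      rw [← mul_assoc, ← hcζ, mul_assoc]
    rw [e3, inv_mul_cancel_left₀ hζn0]
    simp only [mul_assoc]
  · rw [hG', map_mul, map_pow, hσG, hei]
    have e1 : U ^ (n * m) = (σ U) ^ (n * m) * ζ' ^ (n * m) := by
      rw [← mul_pow, hσU1]
    rw [e1, hn]
    ring

end Pool.Agent.Helper96.AL
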