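import Mathlib

/-!
PROJECT AL, piece L9. (field level) If `G = ∏_{j<m} (t^j) g` is fixed by `σ` then
`G = ∏_{j<m} (t^j) μ` for some `μ ≠ 0` fixed by `σ`.

Proof. `t G = G` (`t^m = 1`), so `∏_j (t^j) G = G^m`. With `N f = ∏_{l<p} (σ^l) f`:
`∏_j (t^j) (N g) = N G = G^p` (`t^j σ^l = σ^(k^j l) t^j`, reindexing `l ↦ k^j l` mod `p`). `N g` is
fixed by `σ`. As `m < p` are coprime, there are integers `x p + y m = 1`; `μ = (N g)^x * G^y`
(`zpow`).
-/

namespace Pool.Agent.Helper96.AL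

private theorem l9_cycle {M : Type*} [Field M] (t : M ≃+* M) {m : ℕ} (ht : t ^ m = 1)
    (g : M) (hg : g ≠ 0) :
    t (∏ j ∈ Finset.range m, (t ^ j) g) = ∏ j ∈ Finset.range m, (t ^ j) g := by
  have h1 : t (∏ j ∈ Finset.range m, (t ^ j) g) = ∏ j ∈ Finset.range m, (t ^ (j + 1)) g := by
    rw [map_prod]
    refine Finset.prod_congr rfl fun j _ => ?_
    rw [pow_succ', RingAut.mul_apply]
  rw [h1]
  have h2 : (∏ j ∈ Finset.range m, (t ^ (j + 1)) g) * (t ^ 0) g =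
      (∏ j ∈ Finset.range m, (t ^ j) g) * (t ^ m) g := by
    rw [← Finset.prod_range_succ' (fun j => (t ^ j) g), Finset.prod_range_succ]
  rw [ht, pow_zero] at h2
  exact mul_right_cancel₀ (by simpa using hg) h2

private theorem l9_fixpow {M : Type*} [Field M] (t : M ≃+* M) (G : M) (hG : t G = G) (j : ℕ) :
    (t ^ j) G = G := by
  induction j with
  | zero => rfl
  | succ j ih => rw [pow_succ, RingAut.mul_apply, hG, ih]

private theorem l9_mod {M : Type*} [Field M] (σ : M ≃+* M) {p : ℕ} (hσ : σ ^ p = 1) (n : ℕ) :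
    σ ^ (n % p) = σ ^ n := by
  conv_rhs => rw [← Nat.mod_add_div n p]
  rw [pow_add, pow_mul, hσ, one_pow, mul_one]

private theorem l9_reindex {M : Type*} [Field M] (σ : M ≃+* M) {p k : ℕ} (hp : p.Prime)
    (hk : ¬ p ∣ k) (hσ : σ ^ p = 1) (f : M) :
    ∏ l ∈ Finset.range p, (σ ^ (k * l)) f = ∏ l ∈ Finset.range p, (σ ^ l) f := by
  have hinj : Set.InjOn (fun l => (k * l) % p) (Finset.range p : Set ℕ) := by
    intro a ha b hb hab
    have ha' : a < p := Finset.mem_range.mp (Finset.mem_coe.mp ha)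
    have hb' : b < p := Finset.mem_range.mp (Finset.mem_coe.mp hb)
    have h1 : k * a ≡ k * b [MOD p] := hab
    have h2 : a ≡ b [MOD p] :=
      Nat.ModEq.cancel_left_of_coprime ((Nat.Prime.coprime_iff_not_dvd hp).mpr hk) h1
    have h3 : a % p = b % p := h2
    rwa [Nat.mod_eq_of_lt ha', Nat.mod_eq_of_lt hb'] at h3
  have himg : (Finset.range p).image (fun l => (k * l) % p) = Finset.range p := by
    apply Finset.eq_of_subset_of_card_le
    · intro x hx
      obtain ⟨a, _, rfl⟩ := Finset.mem_image.mp hx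
      exact Finset.mem_range.mpr (Nat.mod_lt _ hp.pos)
    · rw [Finset.card_image_of_injOn hinj]
  have h1 : ∏ l ∈ Finset.range p, (σ ^ l) f =
      ∏ l ∈ Finset.range p, (σ ^ ((k * l) % p)) f := by
    conv_lhs => rw [← himg]
    rw [Finset.prod_image hinj]
  rw [h1]
  refine Finset.prod_congr rfl fun l _ => ?_
  rw [l9_mod σ hσ]

private theorem l9_comm {M : Type*} [Field M] (σ t : M ≃+* M) {k : ℕ}
    (hts : ∀ f, t (σ f) = (σ ^ k) (t f)) (l : ℕ) (f : M) :
    t ((σ ^ l) f) = (σ ^ (k * l)) (t f) := by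
  induction l generalizing f with
  | zero => rfl
  | succ l ih =>
    rw [pow_succ, RingAut.mul_apply, ih, hts, mul_add, mul_one, pow_add, RingAut.mul_apply]

private theorem l9_N {M : Type*} [Field M] (σ t : M ≃+* M) {p k : ℕ} (hp : p.Prime)
    (hk : ¬ p ∣ k) (hσ : σ ^ p = 1) (hts : ∀ f, t (σ f) = (σ ^ k) (t f)) (j : ℕ) (f : M) :
    (t ^ j) (∏ l ∈ Finset.range p, (σ ^ l) f) = ∏ l ∈ Finset.range p, (σ ^ l) ((t ^ j) f) := by
  induction j generalizing f with
  | zero => rfl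
  | succ j ih =>
    rw [pow_succ, RingAut.mul_apply, map_prod]
    have h1 : ∏ l ∈ Finset.range p, t ((σ ^ l) f) = ∏ l ∈ Finset.range p, (σ ^ l) (t f) := by
      rw [← l9_reindex σ hp hk hσ (t f)]
      exact Finset.prod_congr rfl fun l _ => l9_comm σ t hts l f
    rw [h1, ih]
    rfl

theorem exists_mu {M : Type*} [Field M] (σ t : M ≃+* M) {p m k : ℕ} (hp : p.Prime)
    (hm : 0 < m) (hmp : m < p) (hk : (k : ZMod p) ^ m = 1)
    (hσ : σ ^ p = 1) (ht : t ^ m = 1) (hts : ∀ f, t (σ f) = (σ ^ k) (t f))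
    (g : M) (hg : g ≠ 0)
    (hG : σ (∏ j ∈ Finset.range m, (t ^ j) g) = ∏ j ∈ Finset.range m, (t ^ j) g) :
    ∃ μ : M, μ ≠ 0 ∧ σ μ = μ ∧
      ∏ j ∈ Finset.range m, (t ^ j) μ = ∏ j ∈ Finset.range m, (t ^ j) g := by
  have hpk : ¬ p ∣ k := by
    intro h
    have h1 : (k : ZMod p) = 0 := (ZMod.natCast_eq_zero_iff k p).mpr h
    have : Fact p.Prime := ⟨hp⟩
    rw [h1, zero_pow hm.ne'] at hk
    exact zero_ne_one hk
  set G : M := ∏ j ∈ Finset.range m, (t ^ j) g with hGdef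
  set n : M := ∏ l ∈ Finset.range p, (σ ^ l) g with hndef
  have hG0 : G ≠ 0 := Finset.prod_ne_zero_iff.mpr fun j _ => (map_ne_zero (t ^ j)).mpr hg
  have hn0 : n ≠ 0 := Finset.prod_ne_zero_iff.mpr fun j _ => (map_ne_zero (σ ^ j)).mpr hg
  have htG : t G = G := l9_cycle t ht g hg
  have hσn : σ n = n := l9_cycle σ hσ g hg
  have h1 : ∏ j ∈ Finset.range m, (t ^ j) n = G ^ p := by
    have h2 : ∏ j ∈ Finset.range m, (t ^ j) n =
        ∏ j ∈ Finset.range m, ∏ l ∈ Finset.range p, (σ ^ l) ((t ^ j) g) :=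
      Finset.prod_congr rfl fun j _ => l9_N σ t hp hpk hσ hts j g
    rw [h2, Finset.prod_comm]
    have h3 : ∀ l ∈ Finset.range p, ∏ j ∈ Finset.range m, (σ ^ l) ((t ^ j) g) = G := by
      intro l _
      rw [← map_prod]
      exact l9_fixpow σ G hG l
    rw [Finset.prod_congr rfl h3, Finset.prod_const, Finset.card_range]
  have h2 : ∏ j ∈ Finset.range m, (t ^ j) G = G ^ m := by
    rw [Finset.prod_congr rfl fun j _ => l9_fixpow t G htG j, Finset.prod_const,
      Finset.card_range]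
  have hcop : IsCoprime (p : ℤ) (m : ℤ) := by
    rw [Nat.isCoprime_iff_coprime]
    exact (Nat.Prime.coprime_iff_not_dvd hp).mpr (Nat.not_dvd_of_pos_of_lt hm hmp)
  obtain ⟨x, y, hxy⟩ := hcop
  refine ⟨n ^ x * G ^ y, mul_ne_zero (zpow_ne_zero _ hn0) (zpow_ne_zero _ hG0), ?_, ?_⟩
  · rw [map_mul, map_zpow₀, map_zpow₀, hσn, hG]
  · have h3 : ∀ j ∈ Finset.range m, (t ^ j) (n ^ x * G ^ y) =
        ((t ^ j) n) ^ x * ((t ^ j) G) ^ y := by
      intro j _
      rw [map_mul, map_zpow₀, map_zpow₀]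
    rw [Finset.prod_congr rfl h3, Finset.prod_mul_distrib, Finset.prod_zpow, Finset.prod_zpow,
      h1, h2, ← zpow_natCast G p, ← zpow_natCast G m, ← zpow_mul, ← zpow_mul, ← zpow_add₀ hG0,
      mul_comm (p : ℤ) x, mul_comm (m : ℤ) y, hxy, zpow_one]

end Pool.Agent.Helper96.AL
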