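import Pool.Agent.Helper96.AL.L7
import Pool.Agent.Helper96.AL.L8
import Pool.Agent.Helper96.AL.L9

/-!
PROJECT AL, piece L10. The final element `w`: fixed by `τ`, commuting with `u w u⁻¹ ≠ w`.

Proof. L7, L8, L9 give `Z, g, d, μ`. `∏_j (t^j) (g/μ) = 1`; Hilbert 90 (L5) for `t` (order `m`:
t_m, t_pow_ne) gives `y ≠ 0` with `(g/μ) * t y = y`. `Z' = ι y * Z * (ι y)⁻¹`: since
`g * t y = μ y`, `τ Z' = ι d * Z'^k` (elements of `M` commute, `ι μ` and `ι d` are central), and
`u Z' = ζ Z' u`. Hence `(τ^j) Z' = ι d_j * Z'^(k^j)` with `ι d_j ≠ 0` central.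
`w = ∑_{j<m} (τ^j) Z'`: `τ w = w` (`τ^m = 1`); `w` and `u * w * u⁻¹ = ∑ ζ^(k^j) ι d_j Z'^(k^j)` are
combinations of powers of `Z'` with central coefficients, so commute. They differ: the difference
`∑ (ζ^(k^j) - 1) ι d_j Z'^(k^j)` has nonzero components in the distinct eigenspaces
`{x | u x = ζ^i x u}`, `i = k^j mod p` (distinct and nonzero for `j < m` by `hkj`), e.g. apply the
projector of L1 or use that eigenvectors for distinct eigenvalues are independent.
-/

namespace Pool.Agent.Helper96.AL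

variable {p m k : ℕ} {A : Type*} [DivisionRing A] {τ : A ≃+* A} {ζ u : A}

lemma l10_indep {A : Type*} [DivisionRing A] {u : A} (u0 : u ≠ 0) :
    ∀ (n : ℕ) (v lam : ℕ → A), (∀ j, Cen (lam j)) → (∀ j, u * v j = lam j * v j * u) →
      (∀ j, 0 < j → j < n → lam 0 ≠ lam j) → 0 < n →
      ∑ j ∈ Finset.range n, v j = 0 → v 0 = 0 := by
  intro n
  induction n with
  | zero => intro v lam _ _ _ h0 _; exact absurd h0 (lt_irrefl 0)
  | succ n ih =>
    intro v lam hc hv hne _ hsum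
    rcases Nat.eq_zero_or_pos n with hn | hn
    · subst hn
      simpa using hsum
    · have h1 : ∑ j ∈ Finset.range (n + 1), lam j * v j = 0 := by
        have h2 : (∑ j ∈ Finset.range (n + 1), lam j * v j) * u = 0 := by
          rw [Finset.sum_mul]
          have : ∀ j ∈ Finset.range (n + 1), lam j * v j * u = u * v j := fun j _ => (hv j).symm
          rw [Finset.sum_congr rfl this, ← Finset.mul_sum, hsum, mul_zero]
        exact (mul_eq_zero.mp h2).resolve_right u0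
      have h3 : ∑ j ∈ Finset.range n, (lam j - lam n) * v j = 0 := by
        have h4 : ∑ j ∈ Finset.range (n + 1), (lam j - lam n) * v j = 0 := by
          have : ∀ j ∈ Finset.range (n + 1), (lam j - lam n) * v j
              = lam j * v j - lam n * v j := fun j _ => sub_mul _ _ _
          rw [Finset.sum_congr rfl this, Finset.sum_sub_distrib, h1, ← Finset.mul_sum, hsum,
            mul_zero, sub_zero]
        rw [Finset.sum_range_succ, sub_self, zero_mul, add_zero] at h4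
        exact h4
      have hcs : ∀ j, Cen (lam j - lam n) := by
        intro j b
        rw [sub_mul, mul_sub, hc j b, hc n b]
      have h5 := ih (fun j => (lam j - lam n) * v j) lam hc (by
        intro j
        show u * ((lam j - lam n) * v j) = lam j * ((lam j - lam n) * v j) * u
        rw [← mul_assoc, ← hcs j u, mul_assoc, hv j, ← mul_assoc, ← mul_assoc, ← mul_assoc,
          ← hc j (lam j - lam n)]) (fun j hj hjn => hne j hj (Nat.lt_succ_of_lt hjn)) hn h3
      have h6 : (lam 0 - lam n) * v 0 = 0 := h5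
      exact (mul_eq_zero.mp h6).resolve_left (sub_ne_zero.mpr (hne n hn (Nat.lt_succ_self n)))

lemma l10_cen_mul {A : Type*} [DivisionRing A] {a b : A} (ha : Cen a) (hb : Cen b) :
    Cen (a * b) := by
  intro x
  rw [mul_assoc, hb x, ← mul_assoc, ha x, mul_assoc]

lemma l10_cen_pow {A : Type*} [DivisionRing A] {a : A} (ha : Cen a) (n : ℕ) : Cen (a ^ n) := by
  intro x
  exact (Commute.pow_left (ha x : Commute a x) n)

lemma l10_cen_tau {A : Type*} [DivisionRing A] (τ : A ≃+* A) {a : A} (ha : Cen a) :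
    Cen (τ a) := by
  intro x
  obtain ⟨y, rfl⟩ := τ.surjective x
  rw [← map_mul, ha y, map_mul]

theorem exists_w (h : AD p m k τ ζ u) :
    ∃ w : A, τ w = w ∧ u * w ≠ w * u ∧ (u * w * u⁻¹) * w = w * (u * w * u⁻¹) := by
  obtain ⟨Z, M, _, ι, σ, t, g, d, fd, hg, hd, hσd, hτZ⟩ := exists_Z h
  obtain ⟨g', d', hg', hd', hσd', hτZ', hG⟩ := exists_central_norm fd hg hd hσd hτZ
  obtain ⟨μ, hμ, hσμ, hμG⟩ := exists_mu σ t h.hp h.hm h.hmp h.hk (sig_p fd) (t_m fd) (t_sig fd)
    g' hg' hG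
  have hprod : ∏ j ∈ Finset.range m, (t ^ j) (g' / μ) = 1 := by
    have : ∀ j ∈ Finset.range m, (t ^ j) (g' / μ) = (t ^ j) g' / (t ^ j) μ :=
      fun j _ => map_div₀ _ _ _
    rw [Finset.prod_congr rfl this, Finset.prod_div_distrib, hμG]
    apply div_self
    rw [Finset.prod_ne_zero_iff]
    intro j _
    exact (map_ne_zero_iff (t ^ j) (t ^ j).injective).mpr hg'
  obtain ⟨y, hy, hyt⟩ := hilbert90 t m h.hm (t_m fd) (t_pow_ne fd) (g' / μ) hprod
  have hyt' : g' * t y = μ * y := by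
    have e : (g' / μ * t y) * μ = y * μ := by rw [hyt]
    have e2 : (g' / μ * t y) * μ = g' * t y := by field_simp
    rw [← e2, e, mul_comm]
  have ιn : ∀ f : M, f ≠ 0 → ι f ≠ 0 := fun f hf => (map_ne_zero ι).mpr hf
  have cμ : Cen (ι μ) := (sig_fix fd μ).mp hσμ
  have cD : Cen (ι d') := (sig_fix fd d').mp hσd'
  have hD0 : ι d' ≠ 0 := ιn d' hd'
  have hZ0 : Z ≠ 0 := fd.z0
  obtain ⟨Y, hY⟩ : ∃ Y, Y = ι y * Z * (ι y)⁻¹ := ⟨_, rfl⟩
  have hιy := ιn y hy
  have hY0 : Y ≠ 0 := by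
    rw [hY]
    exact mul_ne_zero (mul_ne_zero hιy hZ0) (inv_ne_zero hιy)
  have hcu : ∀ f : M, ι f * u = u * ι f := fun f => (fd.rng (ι f)).mpr ⟨f, rfl⟩
  have huY : u * Y = ζ * Y * u := by
    have e1 : (ι y)⁻¹ * u = u * (ι y)⁻¹ := by
      have hcy := hcu y
      exact (show Commute (ι y) u from hcy).inv_left₀.eq
    rw [hY]
    calc u * (ι y * Z * (ι y)⁻¹) = (u * ι y) * Z * (ι y)⁻¹ := by simp only [mul_assoc]
      _ = (ι y * u) * Z * (ι y)⁻¹ := by rw [hcu y]
      _ = ι y * (u * Z) * (ι y)⁻¹ := by simp only [mul_assoc]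
      _ = ι y * (ζ * Z * u) * (ι y)⁻¹ := by rw [fd.hz]
      _ = (ι y * ζ) * Z * (u * (ι y)⁻¹) := by simp only [mul_assoc]
      _ = (ζ * ι y) * Z * ((ι y)⁻¹ * u) := by rw [← h.ζc (ι y), e1]
      _ = ζ * (ι y * Z * (ι y)⁻¹) * u := by simp only [mul_assoc]
  have hYpow : ∀ n : ℕ, Y ^ n = ι y * Z ^ n * (ι y)⁻¹ := by
    intro n
    induction n with
    | zero => simp [hιy]
    | succ n ih =>
      rw [pow_succ, ih, hY, pow_succ]
      calc ι y * Z ^ n * (ι y)⁻¹ * (ι y * Z * (ι y)⁻¹)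
          = ι y * Z ^ n * ((ι y)⁻¹ * ι y) * Z * (ι y)⁻¹ := by simp only [mul_assoc]
        _ = ι y * (Z ^ n * Z) * (ι y)⁻¹ := by
          rw [inv_mul_cancel₀ hιy, mul_one]
          simp only [mul_assoc]
  have hτY : τ Y = ι d' * Y ^ k := by
    have e1 : τ Y = ι (t y) * (ι d' * ι g' * Z ^ k * (ι g')⁻¹) * (ι (t y))⁻¹ := by
      rw [hY, map_mul, map_mul, map_inv₀, ← fd.ht, hτZ']
    have e2 : ι (t y) * (ι d' * ι g' * Z ^ k * (ι g')⁻¹) * (ι (t y))⁻¹
        = ι d' * (ι (g' * t y) * Z ^ k * (ι (g' * t y))⁻¹) := by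
      have e3 : ι (t y) * ι g' = ι (g' * t y) := by rw [← map_mul, mul_comm]
      have e4 : (ι g')⁻¹ * (ι (t y))⁻¹ = (ι (g' * t y))⁻¹ := by
        rw [← mul_inv_rev, e3]
      calc ι (t y) * (ι d' * ι g' * Z ^ k * (ι g')⁻¹) * (ι (t y))⁻¹
          = (ι (t y) * ι d') * ι g' * Z ^ k * ((ι g')⁻¹ * (ι (t y))⁻¹) := by
            simp only [mul_assoc]
        _ = (ι d' * ι (t y)) * ι g' * Z ^ k * (ι (g' * t y))⁻¹ := by rw [← cD (ι (t y)), e4]
        _ = ι d' * ((ι (t y) * ι g') * Z ^ k * (ι (g' * t y))⁻¹) := by simp only [mul_assoc]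
        _ = ι d' * (ι (g' * t y) * Z ^ k * (ι (g' * t y))⁻¹) := by rw [e3]
    have e5 : ι (μ * y) * Z ^ k * (ι (μ * y))⁻¹ = ι y * Z ^ k * (ι y)⁻¹ := by
      rw [map_mul, mul_inv_rev]
      have hμ0 := ιn μ hμ
      calc ι μ * ι y * Z ^ k * ((ι y)⁻¹ * (ι μ)⁻¹)
          = (ι μ * (ι y * Z ^ k * (ι y)⁻¹)) * (ι μ)⁻¹ := by simp only [mul_assoc]
        _ = ((ι y * Z ^ k * (ι y)⁻¹) * ι μ) * (ι μ)⁻¹ := by rw [cμ]
        _ = ι y * Z ^ k * (ι y)⁻¹ := by rw [mul_assoc, mul_inv_cancel₀ hμ0, mul_one]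
    rw [e1, e2, hyt', e5, hYpow]
  have hx : ∀ j : ℕ, ∃ c : A, Cen c ∧ c ≠ 0 ∧ (τ ^ j) Y = c * Y ^ (k ^ j) := by
    intro j
    induction j with
    | zero => exact ⟨1, fun b => by rw [one_mul, mul_one], one_ne_zero, by simp⟩
    | succ j ih =>
      obtain ⟨c, hc, hc0, hcY⟩ := ih
      refine ⟨τ c * ι d' ^ (k ^ j), l10_cen_mul (l10_cen_tau τ hc) (l10_cen_pow cD _),
        mul_ne_zero ((map_ne_zero_iff τ τ.injective).mpr hc0) (pow_ne_zero _ hD0), ?_⟩
      have e1 : (τ ^ (j + 1)) Y = τ ((τ ^ j) Y) := by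
        rw [pow_succ']
        rfl
      rw [e1, hcY, map_mul, map_pow, hτY,
        Commute.mul_pow (cD (Y ^ k) : Commute (ι d') (Y ^ k)), ← pow_mul, ← pow_succ', mul_assoc]
  choose c hc hc0 hcY using hx
  obtain ⟨x, hxd⟩ : ∃ x : ℕ → A, x = fun j => (τ ^ j) Y := ⟨_, rfl⟩
  have hxe : ∀ j, x j = c j * Y ^ (k ^ j) := by
    intro j
    rw [hxd]
    exact hcY j
  have hxu : ∀ j, u * x j = ζ ^ (k ^ j) * x j * u := by
    intro j
    rw [hxe, ← mul_assoc, ← hc j u, mul_assoc, pow_deg h huY, ← mul_assoc, ← mul_assoc,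
      hc j (ζ ^ (k ^ j)), mul_assoc (ζ ^ (k ^ j)) (c j)]
  have hxx : ∀ i j, Commute (x i) (x j) := by
    intro i j
    rw [hxe, hxe]
    apply Commute.mul_left
    · exact hc i _
    · apply Commute.mul_right
      · exact (hc j _ : Commute _ _).symm
      · exact Commute.pow_pow (Commute.refl Y) _ _
  obtain ⟨w, hw⟩ : ∃ w, w = ∑ j ∈ Finset.range m, x j := ⟨_, rfl⟩
  have hζc : ∀ n, Cen (ζ ^ n) := fun n => l10_cen_pow h.ζc n
  have huw : u * w * u⁻¹ = ∑ j ∈ Finset.range m, ζ ^ (k ^ j) * x j := by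
    rw [hw, Finset.mul_sum, Finset.sum_mul]
    apply Finset.sum_congr rfl
    intro j _
    rw [hxu, mul_assoc, mul_inv_cancel₀ h.u0, mul_one]
  refine ⟨w, ?_, ?_, ?_⟩
  · have e1 : ∀ j ∈ Finset.range m, τ (x j) = x (j + 1) := by
      intro j _
      rw [hxd]
      show τ ((τ ^ j) Y) = (τ ^ (j + 1)) Y
      rw [pow_succ']
      rfl
    have e2 : x m = x 0 := by
      rw [hxd]
      show (τ ^ m) Y = (τ ^ 0) Y
      rw [h.τm]
      simp
    have e3 : ∑ j ∈ Finset.range m, x (j + 1) + x 0 = ∑ j ∈ Finset.range m, x j + x m := by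
      rw [← Finset.sum_range_succ', Finset.sum_range_succ]
    rw [e2] at e3
    rw [hw, map_sum, Finset.sum_congr rfl e1]
    exact add_right_cancel e3
  · intro hcomm
    have e1 : u * w * u⁻¹ = w := by
      rw [hcomm, mul_assoc, mul_inv_cancel₀ h.u0, mul_one]
    have e2 : ∑ j ∈ Finset.range m, (ζ ^ (k ^ j) - 1) * x j = 0 := by
      have : ∀ j ∈ Finset.range m, (ζ ^ (k ^ j) - 1) * x j = ζ ^ (k ^ j) * x j - x j := by
        intro j _
        rw [sub_mul, one_mul]
      rw [Finset.sum_congr rfl this, Finset.sum_sub_distrib, ← huw, ← hw, e1, sub_self]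
    have hc1 : ∀ j, Cen (ζ ^ (k ^ j) - 1) := by
      intro j b
      rw [sub_mul, mul_sub, hζc _ b, one_mul, mul_one]
    have hζ0 : ζ ≠ 0 := by
      intro h0
      have := h.ζp
      rw [h0, zero_pow h.hp.ne_zero] at this
      exact zero_ne_one this
    have key := l10_indep h.u0 m (fun j => (ζ ^ (k ^ j) - 1) * x j) (fun j => ζ ^ (k ^ j))
      (fun j => hζc _) (by
        intro j
        show u * ((ζ ^ (k ^ j) - 1) * x j) = ζ ^ (k ^ j) * ((ζ ^ (k ^ j) - 1) * x j) * u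
        rw [← mul_assoc, ← hc1 j u, mul_assoc, hxu j, ← mul_assoc, ← mul_assoc, ← mul_assoc,
          hc1 j (ζ ^ (k ^ j))]) (by
        intro j hj hjm hEq
        have : Fact p.Prime := ⟨h.hp⟩
        have hEq' : ζ ^ (k ^ 0) = ζ ^ (k ^ j) := hEq
        have ho : orderOf (Units.mk0 ζ hζ0) = p := by
          apply orderOf_eq_prime
          · ext
            simpa using h.ζp
          · intro h1
            apply h.ζ1
            have := congrArg Units.val h1
            simpa using this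
        have h2 : (Units.mk0 ζ hζ0) ^ (k ^ 0) = (Units.mk0 ζ hζ0) ^ (k ^ j) := by
          ext
          simpa using hEq'
        rw [pow_eq_pow_iff_modEq, ho] at h2
        apply h.hkj j hj hjm
        have h3 := (ZMod.natCast_eq_natCast_iff _ _ p).mpr h2
        push_cast at h3
        rw [pow_zero] at h3
        exact h3.symm) h.hm e2
    have key' : (ζ ^ (k ^ 0) - 1) * x 0 = 0 := key
    rw [pow_zero, pow_one] at key'
    rcases mul_eq_zero.mp key' with h1 | h1
    · exact h.ζ1 (sub_eq_zero.mp h1)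
    · apply hY0
      rw [hxd] at h1
      simpa using h1
  · rw [huw, hw]
    have : Commute (∑ j ∈ Finset.range m, ζ ^ (k ^ j) * x j) (∑ j ∈ Finset.range m, x j) := by
      apply Commute.sum_left
      intro i _
      apply Commute.sum_right
      intro j _
      apply Commute.mul_left
      · exact hζc _ _
      · exact hxx i j
    exact this

end Pool.Agent.Helper96.AL
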