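import Mathlib

/-!
PROJECT AL, piece T1. `D ⊗ K` is a division ring when `[K : F]` is prime to `[D : F]`.

Proof: let `0 ≠ a` in `A = D ⊗[F] K` and `I = A a` (left ideal). It is a `D`-subspace of `A` (left
multiplication by `d ⊗ 1`; `A` has `D`-dimension `[K : F]`) and a `K`-subspace (`1 ⊗ κ` is central
for the `F`-structure and `I` is a left ideal). So `finrank F I = [D:F] * dim_D I = [K:F] * dim_K I`,
hence `[K:F]` divides `dim_D I`, and `0 < dim_D I ≤ [K:F]`: `I = A`, so `b * a = 1` for some `b`.
-/

namespace Pool.Agent.Helper96.AL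

open TensorProduct

theorem t1_dvd {F E A V : Type*} [Field F] [DivisionRing E] [Algebra F E] [Ring A] [Algebra F A]
    [AddCommGroup V] [Module A V] [Module F V] [IsScalarTower F A V] (φ : E →ₐ[F] A) :
    Module.finrank F E ∣ Module.finrank F V := by
  letI : Module E V := Module.compHom V φ.toRingHom
  haveI : IsScalarTower F E V := ⟨fun r e v => by
    change φ (r • e) • v = r • (φ e • v)
    rw [map_smul, smul_assoc]⟩
  exact ⟨Module.finrank E V, (Module.finrank_mul_finrank F E V).symm⟩

theorem exists_left_inv {F D K : Type*} [Field F] [DivisionRing D] [Algebra F D] [Field K]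
    [Algebra F K] [FiniteDimensional F D] [FiniteDimensional F K]
    (hcop : (Module.finrank F K).Coprime (Module.finrank F D)) (a : D ⊗[F] K) (ha : a ≠ 0) :
    ∃ b : D ⊗[F] K, b * a = 1 := by
  set I : Submodule (D ⊗[F] K) (D ⊗[F] K) := Submodule.span (D ⊗[F] K) {a} with hI
  have h1 : Module.finrank F D ∣ Module.finrank F I :=
    t1_dvd (A := D ⊗[F] K) (Algebra.TensorProduct.includeLeft : D →ₐ[F] D ⊗[F] K)
  have h2 : Module.finrank F K ∣ Module.finrank F I :=
    t1_dvd (A := D ⊗[F] K) (Algebra.TensorProduct.includeRight : K →ₐ[F] D ⊗[F] K)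
  have h3 : Module.finrank F K * Module.finrank F D ∣ Module.finrank F I :=
    hcop.mul_dvd_of_dvd_of_dvd h2 h1
  have h4 : Module.finrank F (D ⊗[F] K) = Module.finrank F D * Module.finrank F K :=
    Module.finrank_tensorProduct
  have h5 : Module.finrank F (I.restrictScalars F) ≤ Module.finrank F (D ⊗[F] K) :=
    Submodule.finrank_le _
  have h6 : Module.finrank F (I.restrictScalars F) = Module.finrank F I := rfl
  have hpos : 0 < Module.finrank F (I.restrictScalars F) := by
    rw [Module.finrank_pos_iff_exists_ne_zero]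
    exact ⟨⟨a, Submodule.mem_span_singleton_self a⟩, fun h => ha (congrArg Subtype.val h)⟩
  have h7 : Module.finrank F (I.restrictScalars F) = Module.finrank F (D ⊗[F] K) := by
    refine le_antisymm h5 ?_
    rw [h4, mul_comm, h6]
    exact Nat.le_of_dvd (by rw [← h6]; exact hpos) h3
  have htop : I.restrictScalars F = ⊤ := Submodule.eq_top_of_finrank_eq h7
  have h1mem : (1 : D ⊗[F] K) ∈ I.restrictScalars F := by rw [htop]; trivial
  have h1mem' : (1 : D ⊗[F] K) ∈ I := h1mem
  rw [hI, Submodule.mem_span_singleton] at h1mem'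
  obtain ⟨b, hb⟩ := h1mem'
  exact ⟨b, hb⟩

end Pool.Agent.Helper96.AL
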