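import Mathlib
import Pool.Agent.Helper96.CY.B0

/-!
PROJECT AL, piece T2. Centralisers and fixed points in `D ⊗ K`.

`comm_D`: in a central division algebra of dimension 25 the centraliser of `x` outside `F` is
commutative: `C` = centraliser of `x`, `C` is a division subring containing `F(x)`; `D` is a left
`C`-space, so `[C : F]` divides 25 and `≥ [F(x) : F] ≥ 5` ((minpoly F x).natDegree divides 25, piece
`Pool.Agent.Helper96.CY.natDegree_minpoly_dvd`, and is not 1); `[C : F] = 25` would make `x`
central; so `[C : F] = 5` and `C = F(x)`. (Alternative: if `a` in `C` is outside `F(x)` ... )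
`comm_tensor`: choose an `F`-basis `e_i` of `K`; `a = ∑ d_i ⊗ e_i`, and `a` commutes with `x ⊗ 1`
iff all `d_i` commute with `x`. `center_tensor`: same with all of `D`: `d_i` in `F`.
`fixed_tensor`: with an `F`-basis `b_j` of `D`, `a = ∑ b_j ⊗ κ_j`, `(id ⊗ s) a = a` iff all
`s κ_j = κ_j`, iff `κ_j` in `F`.
-/

namespace Pool.Agent.Helper96.AL

open TensorProduct

theorem t2_dvd {F D : Type*} [Field F] [DivisionRing D] [Algebra F D] [FiniteDimensional F D]
    (C : Subalgebra F D) : Module.finrank F C ∣ Module.finrank F D := by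
  haveI : IsDomain C := inferInstance
  letI : DivisionRing C := divisionRingOfFiniteDimensional F C
  have h := Module.finrank_mul_finrank F C D
  exact Dvd.intro _ h

theorem t2_dvd25 {n : ℕ} (h : n ∣ 25) : n = 1 ∨ n = 5 ∨ n = 25 := by
  have hn : n ≤ 25 := Nat.le_of_dvd (by norm_num) h
  interval_cases n <;> first | (left; rfl) | (right; left; rfl) | (right; right; rfl) | (exfalso; revert h; decide)

theorem comm_D {F D : Type*} [Field F] [DivisionRing D] [Algebra F D]
    (hcen : ∀ x : D, (∀ y, x * y = y * x) → ∃ c : F, algebraMap F D c = x)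
    (hdim : Module.finrank F D = 25) {x : D} (hx : ∀ c : F, x ≠ algebraMap F D c) {a b : D}
    (ha : a * x = x * a) (hb : b * x = x * b) : a * b = b * a := by
  haveI : FiniteDimensional F D := FiniteDimensional.of_finrank_pos (by omega)
  set C : Subalgebra F D := Subalgebra.centralizer F ({x} : Set D) with hC
  have hmemC : ∀ z : D, z ∈ C ↔ z * x = x * z := by
    intro z
    rw [hC, Subalgebra.mem_centralizer_iff]
    constructor
    · intro h
      exact (h x rfl).symm
    · intro h g hg
      rw [Set.mem_singleton_iff] at hg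
      rw [hg, h]
  have hCd : Module.finrank F C ∣ 25 := hdim ▸ t2_dvd C
  have hxi : IsIntegral F x := Algebra.IsIntegral.isIntegral x
  have hdd : (minpoly F x).natDegree ∣ 25 := hdim ▸
    Pool.Agent.Helper96.CY.natDegree_minpoly_dvd x
  have hd1 : (minpoly F x).natDegree ≠ 1 := by
    intro h1
    obtain ⟨c, hc⟩ := minpoly.natDegree_eq_one_iff.1 h1
    exact hx c hc.symm
  have hCne : Module.finrank F C ≠ 25 := by
    intro h25
    have htop : Subalgebra.toSubmodule C = ⊤ := by
      apply Submodule.eq_top_of_finrank_eq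
      rw [hdim]
      exact h25
    obtain ⟨c, hc⟩ := hcen x (fun y => by
      have hy : y ∈ Subalgebra.toSubmodule C := by rw [htop]; trivial
      exact ((hmemC y).1 hy).symm)
    exact hx c hc.symm
  have hxC : ∀ i : ℕ, x ^ i ∈ C := by
    intro i
    rw [hmemC]
    exact (Commute.pow_left (Commute.refl x) i)
  have hli : LinearIndependent F (fun i : Fin (minpoly F x).natDegree => x ^ (i : ℕ)) :=
    linearIndependent_pow x
  set v : Fin (minpoly F x).natDegree → Subalgebra.toSubmodule C :=
    fun i => ⟨x ^ (i : ℕ), hxC i⟩ with hv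
  have hliC : LinearIndependent F v := by
    apply LinearIndependent.of_comp (Subalgebra.toSubmodule C).subtype
    exact hli
  have hle : (minpoly F x).natDegree ≤ Module.finrank F (Subalgebra.toSubmodule C) := by
    have := hliC.fintype_card_le_finrank
    rwa [Fintype.card_fin] at this
  have hCd' : Module.finrank F (Subalgebra.toSubmodule C) = Module.finrank F C := rfl
  rw [hCd'] at hle
  have hd5 : (minpoly F x).natDegree = 5 ∧ Module.finrank F C = 5 := by
    rcases t2_dvd25 hCd with h | h | h <;> rcases t2_dvd25 hdd with h' | h' | h' <;> omega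
  have hspan : Submodule.span F (Set.range v) = ⊤ := by
    apply hliC.span_eq_top_of_card_eq_finrank'
    rw [Fintype.card_fin, hCd', hd5.1, hd5.2]
  have haC : a ∈ C := (hmemC a).2 ha
  have hmem : (⟨a, haC⟩ : Subalgebra.toSubmodule C) ∈ Submodule.span F (Set.range v) := by
    rw [hspan]; trivial
  have key : ∀ z : Subalgebra.toSubmodule C, z ∈ Submodule.span F (Set.range v) →
      (z : D) * b = b * (z : D) := by
    intro z hz
    induction hz using Submodule.span_induction with
    | mem z hz =>
      obtain ⟨i, rfl⟩ := hz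
      exact (Commute.pow_left (show Commute x b from hb.symm) i)
    | zero => simp
    | add y z _ _ hy hz =>
      rw [Submodule.coe_add, add_mul, mul_add, hy, hz]
    | smul c z _ hz =>
      rw [Submodule.coe_smul, smul_mul_assoc, mul_smul_comm, hz]
  exact key _ hmem

section reps

variable {F D K : Type*} [Field F] [DivisionRing D] [Algebra F D] [Field K] [Algebra F K]

/-- coordinate in the second factor -/
noncomputable def t2_phi (f : K →ₗ[F] F) : D ⊗[F] K →ₗ[F] D :=
  (TensorProduct.rid F D).toLinearMap ∘ₗ (TensorProduct.map LinearMap.id f)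

/-- coordinate in the first factor -/
noncomputable def t2_psi (f : D →ₗ[F] F) : D ⊗[F] K →ₗ[F] K :=
  (TensorProduct.lid F K).toLinearMap ∘ₗ (TensorProduct.map f LinearMap.id)

theorem t2_phi_tmul (f : K →ₗ[F] F) (d : D) (k : K) : t2_phi f (d ⊗ₜ[F] k) = f k • d := by
  simp [t2_phi]

theorem t2_psi_tmul (f : D →ₗ[F] F) (d : D) (k : K) : t2_psi f (d ⊗ₜ[F] k) = f d • k := by
  simp [t2_psi]

theorem t2_phi_mul_right (f : K →ₗ[F] F) (a : D ⊗[F] K) (x : D) :
    t2_phi f (a * (x ⊗ₜ 1)) = t2_phi f a * x := by
  induction a using TensorProduct.induction_on with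
  | zero => simp
  | tmul d k =>
    rw [Algebra.TensorProduct.tmul_mul_tmul, mul_one, t2_phi_tmul, t2_phi_tmul, smul_mul_assoc]
  | add y z hy hz => rw [add_mul, map_add, map_add, add_mul, hy, hz]

theorem t2_phi_mul_left (f : K →ₗ[F] F) (a : D ⊗[F] K) (x : D) :
    t2_phi f ((x ⊗ₜ 1) * a) = x * t2_phi f a := by
  induction a using TensorProduct.induction_on with
  | zero => simp
  | tmul d k =>
    rw [Algebra.TensorProduct.tmul_mul_tmul, one_mul, t2_phi_tmul, t2_phi_tmul, mul_smul_comm]
  | add y z hy hz => rw [mul_add, map_add, map_add, mul_add, hy, hz]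

theorem t2_rep {ι : Type*} [Fintype ι] (e : Module.Basis ι F K) (a : D ⊗[F] K) :
    a = ∑ i, t2_phi (e.coord i) a ⊗ₜ[F] e i := by
  induction a using TensorProduct.induction_on with
  | zero => simp
  | tmul d k =>
    simp_rw [t2_phi_tmul, TensorProduct.smul_tmul]
    rw [← TensorProduct.tmul_sum]
    congr 1
    exact (e.sum_repr k).symm
  | add y z hy hz =>
    simp_rw [map_add, TensorProduct.add_tmul, Finset.sum_add_distrib]
    rw [← hy, ← hz]

theorem t2_rep' {ι : Type*} [Fintype ι] (e : Module.Basis ι F D) (a : D ⊗[F] K) :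
    a = ∑ i, e i ⊗ₜ[F] t2_psi (e.coord i) a := by
  induction a using TensorProduct.induction_on with
  | zero => simp
  | tmul d k =>
    simp_rw [t2_psi_tmul, ← TensorProduct.smul_tmul]
    rw [← TensorProduct.sum_tmul]
    congr 1
    exact (e.sum_repr d).symm
  | add y z hy hz =>
    simp_rw [map_add, TensorProduct.tmul_add, Finset.sum_add_distrib]
    rw [← hy, ← hz]

end reps

theorem comm_tensor {F D K : Type*} [Field F] [DivisionRing D] [Algebra F D] [Field K]
    [Algebra F K] [FiniteDimensional F K]
    (hcen : ∀ x : D, (∀ y, x * y = y * x) → ∃ c : F, algebraMap F D c = x)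
    (hdim : Module.finrank F D = 25) {x : D} (hx : ∀ c : F, x ≠ algebraMap F D c)
    {a b : D ⊗[F] K} (ha : a * (x ⊗ₜ 1) = (x ⊗ₜ 1) * a) (hb : b * (x ⊗ₜ 1) = (x ⊗ₜ 1) * b) :
    a * b = b * a := by
  set e := Module.finBasis F K
  have ha' : ∀ i, t2_phi (e.coord i) a * x = x * t2_phi (e.coord i) a := by
    intro i
    rw [← t2_phi_mul_right, ha, t2_phi_mul_left]
  have hb' : ∀ i, t2_phi (e.coord i) b * x = x * t2_phi (e.coord i) b := by
    intro i
    rw [← t2_phi_mul_right, hb, t2_phi_mul_left]
  rw [t2_rep e a, t2_rep e b, Finset.sum_mul_sum, Finset.sum_mul_sum, Finset.sum_comm]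
  refine Finset.sum_congr rfl (fun i _ => Finset.sum_congr rfl (fun j _ => ?_))
  rw [Algebra.TensorProduct.tmul_mul_tmul, Algebra.TensorProduct.tmul_mul_tmul,
    comm_D hcen hdim hx (ha' j) (hb' i), mul_comm (e j) (e i)]

theorem center_tensor {F D K : Type*} [Field F] [DivisionRing D] [Algebra F D] [Field K]
    [Algebra F K] [FiniteDimensional F K]
    (hcen : ∀ x : D, (∀ y, x * y = y * x) → ∃ c : F, algebraMap F D c = x)
    {a : D ⊗[F] K} (ha : ∀ b, a * b = b * a) : ∃ κ : K, a = (1 : D) ⊗ₜ κ := by
  set e := Module.finBasis F K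
  have ha' : ∀ i, ∃ c : F, algebraMap F D c = t2_phi (e.coord i) a := by
    intro i
    apply hcen
    intro y
    rw [← t2_phi_mul_right, ha, t2_phi_mul_left]
  choose c hc using ha'
  refine ⟨∑ i, c i • e i, ?_⟩
  rw [t2_rep e a, TensorProduct.tmul_sum]
  refine Finset.sum_congr rfl (fun i _ => ?_)
  rw [← hc i, Algebra.algebraMap_eq_smul_one, TensorProduct.smul_tmul]

theorem fixed_tensor {F D K : Type*} [Field F] [DivisionRing D] [Algebra F D]
    [FiniteDimensional F D] [Field K] [Algebra F K] (s : K ≃ₐ[F] K)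
    (hs : ∀ κ : K, s κ = κ → ∃ c : F, κ = algebraMap F K c) {a : D ⊗[F] K}
    (ha : Algebra.TensorProduct.map (AlgHom.id F D) s.toAlgHom a = a) :
    ∃ d : D, a = d ⊗ₜ (1 : K) := by
  set e := Module.finBasis F D
  have hmap : ∀ (f : D →ₗ[F] F) (b : D ⊗[F] K),
      t2_psi f (Algebra.TensorProduct.map (AlgHom.id F D) s.toAlgHom b) = s (t2_psi f b) := by
    intro f b
    induction b using TensorProduct.induction_on with
    | zero => simp
    | tmul d k =>
      rw [Algebra.TensorProduct.map_tmul, t2_psi_tmul, t2_psi_tmul, map_smul]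
      rfl
    | add y z hy hz => rw [map_add, map_add, map_add, map_add, hy, hz]
  have ha' : ∀ i, ∃ c : F, t2_psi (e.coord i) a = algebraMap F K c := by
    intro i
    apply hs
    rw [← hmap, ha]
  choose c hc using ha'
  refine ⟨∑ i, c i • e i, ?_⟩
  rw [t2_rep' e a, TensorProduct.sum_tmul]
  refine Finset.sum_congr rfl (fun i _ => ?_)
  rw [hc i, Algebra.algebraMap_eq_smul_one, TensorProduct.smul_tmul]

end Pool.Agent.Helper96.AL
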