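import Mathlib

/-!
PROJECT AL, piece T3. The cyclotomic extension `K = F(ζ_5)` (characteristic not 5): Galois with
cyclic group generated by `s`, `s ζ = ζ^k`, `m = [K : F]` divides 4.

Proof: `K = CyclotomicField 5 F`, `IsCyclotomicExtension.isGalois`, the group embeds into
`(ZMod 5)ˣ` (`IsPrimitiveRoot.autToPow`), which is cyclic of order 4; `s` a generator of the Galois
group, of order `m = finrank F K`; `s^j = 1` iff `k^j = 1` mod 5. An element fixed by `s` is fixed
by the whole group, so lies in `F`.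
-/

namespace Pool.Agent.Helper96.AL

universe u

theorem exists_cyclotomic (F : Type u) [Field F] (h5 : (5 : F) ≠ 0) :
    ∃ (K : Type u) (_ : Field K) (_ : Algebra F K) (_ : FiniteDimensional F K) (s : K ≃ₐ[F] K)
      (ζ : K) (m k : ℕ), m = Module.finrank F K ∧ 0 < m ∧ m ∣ 4 ∧ ζ ^ 5 = 1 ∧ ζ ≠ 1 ∧
      s ζ = ζ ^ k ∧ s ^ m = 1 ∧ (k : ZMod 5) ^ m = 1 ∧
      (∀ j, 0 < j → j < m → (k : ZMod 5) ^ j ≠ 1) ∧
      ∀ κ : K, s κ = κ → ∃ c : F, κ = algebraMap F K c := by
  have hp : Fact (Nat.Prime 5) := ⟨by norm_num⟩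
  have hne : NeZero ((5 : ℕ) : F) := ⟨by exact_mod_cast h5⟩
  have hfd : FiniteDimensional F (CyclotomicField 5 F) :=
    IsCyclotomicExtension.finiteDimensional {5} F (CyclotomicField 5 F)
  have hgal : IsGalois F (CyclotomicField 5 F) :=
    IsCyclotomicExtension.isGalois {5} F (CyclotomicField 5 F)
  have hζ := IsCyclotomicExtension.zeta_spec 5 F (CyclotomicField 5 F)
  have hinj : Function.Injective (hζ.autToPow F) := hζ.autToPow_injective F
  have hcyc : IsCyclic (CyclotomicField 5 F ≃ₐ[F] CyclotomicField 5 F) :=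
    isCyclic_of_injective _ hinj
  obtain ⟨s, hs⟩ := hcyc.exists_generator
  have hord : orderOf s = Module.finrank F (CyclotomicField 5 F) := by
    rw [orderOf_eq_card_of_forall_mem_zpowers hs, IsGalois.card_aut_eq_finrank]
  have hm0 : 0 < Module.finrank F (CyclotomicField 5 F) := Module.finrank_pos
  have hunit : ((hζ.autToPow F s : (ZMod 5)ˣ) : ZMod 5) =
      (((hζ.autToPow F s : (ZMod 5)ˣ) : ZMod 5).val : ZMod 5) := by
    rw [ZMod.natCast_zmod_val]
  have hpow : ∀ j : ℕ, ((((hζ.autToPow F s : (ZMod 5)ˣ) : ZMod 5).val : ZMod 5)) ^ j = 1 ↔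
      s ^ j = 1 := by
    intro j
    rw [← hunit, ← Units.val_pow_eq_pow_val, ← map_pow, Units.val_eq_one]
    constructor
    · intro h
      exact hinj (h.trans (map_one _).symm)
    · intro h
      rw [h, map_one]
  refine ⟨CyclotomicField 5 F, inferInstance, inferInstance, hfd, s,
    IsCyclotomicExtension.zeta 5 F (CyclotomicField 5 F), Module.finrank F (CyclotomicField 5 F),
    ((hζ.autToPow F s : (ZMod 5)ˣ) : ZMod 5).val, rfl, hm0, ?_, hζ.pow_eq_one,
    hζ.ne_one (by norm_num), ?_, ?_, ?_, ?_, ?_⟩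
  · rw [← hord, ← orderOf_injective _ hinj s]
    have h := orderOf_dvd_card (x := hζ.autToPow F s)
    rwa [ZMod.card_units_eq_totient, Nat.totient_prime hp.out] at h
  · exact (hζ.autToPow_spec F s).symm
  · rw [← hord]
    exact pow_orderOf_eq_one s
  · rw [hpow, ← hord]
    exact pow_orderOf_eq_one s
  · intro j hj hjm h
    rw [hpow] at h
    rw [← hord] at hjm
    exact absurd (Nat.le_of_dvd hj (orderOf_dvd_of_pow_eq_one h)) (not_le.2 hjm)
  · intro κ hκ
    have hfix : ∀ f : CyclotomicField 5 F ≃ₐ[F] CyclotomicField 5 F, f κ = κ := by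
      intro f
      have hle : Subgroup.zpowers s ≤ MulAction.stabilizer
          (CyclotomicField 5 F ≃ₐ[F] CyclotomicField 5 F) κ := by
        rw [Subgroup.zpowers_le]
        exact hκ
      exact hle (hs f)
    obtain ⟨c, hc⟩ := (IsGalois.mem_range_algebraMap_iff_fixed κ).2 hfix
    exact ⟨c, hc.symm⟩

end Pool.Agent.Helper96.AL
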