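import Mathlib
import Pool.Agent.Helper96.AL.L10
import Pool.Agent.Helper96.AL.T1
import Pool.Agent.Helper96.AL.T2
import Pool.Agent.Helper96.AL.T3

/-!
PROJECT AL, piece T4. Albert's theorem, characteristic not 5: if `u` is outside `F` and `u^5` in `F`
there is `w` in `D` commuting with `u w u⁻¹ ≠ w`.

Proof: `K, s, ζ, m, k` from T3; `A = D ⊗[F] K` with the division ring structure given by T1
(noncomputable inverse from the left inverse; a ring in which every nonzero element has a left
inverse), `τ = Algebra.TensorProduct.congr (refl) s` as a ring automorphism, `u ⊗ 1`. Check the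
fields of `AD` (p = 5): `1 ⊗ ζ` central, `comm` from comm_tensor, `unc` from `hcen`, `pne` from
`(5 : F) ≠ 0`. L10 gives `w` in `A` with `τ w = w`, so `w = d ⊗ 1` (fixed_tensor); the relations
descend to `D` (`d ↦ d ⊗ 1` is an injective ring homomorphism).
-/

namespace Pool.Agent.Helper96.AL

open TensorProduct

theorem t4_core {A : Type*} [Ring A] [Nontrivial A] (hinv : ∀ a : A, a ≠ 0 → ∃ b, b * a = 1)
    (τ : A ≃+* A) (ζ u : A) (m k : ℕ) (hm : 0 < m) (hmp : m < 5) (hk : (k : ZMod 5) ^ m = 1)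
    (hkj : ∀ j, 0 < j → j < m → (k : ZMod 5) ^ j ≠ 1) (pne : ((5 : ℕ) : A) ≠ 0)
    (ζc : ∀ b, ζ * b = b * ζ) (ζp : ζ ^ 5 = 1) (ζ1 : ζ ≠ 1) (u0 : u ≠ 0)
    (up : ∀ b, u ^ 5 * b = b * u ^ 5) (unc : ¬ ∀ b, u * b = b * u)
    (τm : ∀ a, (τ ^ m) a = a) (τζ : τ ζ = ζ ^ k) (τu : τ u = u)
    (comm : ∀ a b : A, a * u = u * a → b * u = u * b → a * b = b * a) :
    ∃ w v : A, τ w = w ∧ u * w ≠ w * u ∧ v * u = 1 ∧ (u * w * v) * w = w * (u * w * v) := by
  have hU : ∀ a : A, IsUnit a ∨ a = 0 := by
    intro a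
    by_cases ha : a = 0
    · exact Or.inr ha
    · left
      obtain ⟨b, hb⟩ := hinv a ha
      have hb0 : b ≠ 0 := by
        rintro rfl
        rw [zero_mul] at hb
        exact zero_ne_one hb
      obtain ⟨c, hc⟩ := hinv b hb0
      have hca : c = a := by
        calc c = c * (b * a) := by rw [hb, mul_one]
          _ = (c * b) * a := by rw [mul_assoc]
          _ = a := by rw [hc, one_mul]
      rw [hca] at hc
      exact ⟨⟨a, b, hc, hb⟩, rfl⟩
  letI : DivisionRing A := DivisionRing.ofIsUnitOrEqZero hU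
  have h : AD 5 m k τ ζ u :=
    { hp := by norm_num
      hm := hm
      hmp := hmp
      hk := hk
      hkj := hkj
      pne := pne
      ζc := ζc
      ζp := ζp
      ζ1 := ζ1
      u0 := u0
      up := up
      unc := unc
      τm := τm
      τζ := τζ
      τu := τu
      comm := comm }
  obtain ⟨w, h1, h2, h3⟩ := exists_w h
  exact ⟨w, u⁻¹, h1, h2, inv_mul_cancel₀ u0, h3⟩

theorem albert_ne_five {F D : Type*} [Field F] [DivisionRing D] [Algebra F D] (h5 : (5 : F) ≠ 0)
    (hcen : ∀ x : D, (∀ y, x * y = y * x) → ∃ c : F, algebraMap F D c = x)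
    (hdim : Module.finrank F D = 25) {u : D} (hu : ∀ c : F, u ≠ algebraMap F D c)
    (hu5 : ∃ c : F, u ^ 5 = algebraMap F D c) :
    ∃ w : D, u * w ≠ w * u ∧ (u * w * u⁻¹) * w = w * (u * w * u⁻¹) := by
  obtain ⟨K, _, _, _, s, ζ, m, k, hm, hm0, hm4, hζ5, hζ1, hsζ, hsm, hkm, hkj, hfix⟩ :=
    exists_cyclotomic F h5
  haveI : FiniteDimensional F D := FiniteDimensional.of_finrank_pos (by rw [hdim]; norm_num)
  have hcop : (Module.finrank F K).Coprime (Module.finrank F D) := by
    rw [hdim, ← hm]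
    exact Nat.Coprime.coprime_dvd_left hm4 (by norm_num)
  have hfr : Module.finrank F (D ⊗[F] K) = 25 * m := by
    rw [Module.finrank_tensorProduct, hdim, ← hm]
  haveI : Nontrivial (D ⊗[F] K) := by
    by_contra hnt
    rw [not_nontrivial_iff_subsingleton] at hnt
    have := Module.finrank_zero_of_subsingleton (R := F) (M := D ⊗[F] K)
    omega
  have hinjL : Function.Injective (Algebra.TensorProduct.includeLeft : D →ₐ[F] D ⊗[F] K) :=
    (Algebra.TensorProduct.includeLeft : D →ₐ[F] D ⊗[F] K).toRingHom.injective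
  have hinj : ∀ x y : D, x ⊗ₜ[F] (1 : K) = y ⊗ₜ[F] (1 : K) → x = y := fun x y hxy => hinjL hxy
  have hu0 : u ≠ 0 := by
    intro h0
    apply hu 0
    rw [h0, map_zero]
  have hu'0 : u ⊗ₜ[F] (1 : K) ≠ 0 := by
    intro h0
    apply hu0
    apply hinj
    rw [h0, TensorProduct.zero_tmul]
  have hinjR : Function.Injective (Algebra.TensorProduct.includeRight : K →ₐ[F] D ⊗[F] K) :=
    (Algebra.TensorProduct.includeRight : K →ₐ[F] D ⊗[F] K).toRingHom.injective
  obtain ⟨c5, hc5⟩ := hu5
  obtain ⟨w, v, h1, h2, h3, h4⟩ := t4_core (A := D ⊗[F] K)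
    (fun a ha => exists_left_inv hcop a ha)
    (Algebra.TensorProduct.congr (AlgEquiv.refl : D ≃ₐ[F] D) s).toRingEquiv
    ((1 : D) ⊗ₜ[F] ζ) (u ⊗ₜ[F] (1 : K)) m k hm0
    (lt_of_le_of_lt (Nat.le_of_dvd (by norm_num) hm4) (by norm_num)) hkm hkj
    (by
      intro h0
      apply h5
      have e1 : algebraMap F (D ⊗[F] K) 5 = 0 := by
        have : algebraMap F (D ⊗[F] K) 5 = ((5 : ℕ) : D ⊗[F] K) := by
          simpa using map_natCast (algebraMap F (D ⊗[F] K)) 5
        rw [this, h0]
      exact (map_eq_zero_iff _ (algebraMap F (D ⊗[F] K)).injective).1 e1)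
    (by
      intro b
      induction b using TensorProduct.induction_on with
      | zero => rw [mul_zero, zero_mul]
      | tmul x y =>
        rw [Algebra.TensorProduct.tmul_mul_tmul, Algebra.TensorProduct.tmul_mul_tmul, one_mul,
          mul_one, mul_comm]
      | add x y hx hy => rw [mul_add, add_mul, hx, hy])
    (by rw [Algebra.TensorProduct.tmul_pow, one_pow, hζ5]; rfl)
    (by
      intro h0
      apply hζ1
      exact hinjR h0)
    hu'0
    (by
      intro b
      have : (u ⊗ₜ[F] (1 : K)) ^ 5 = algebraMap F (D ⊗[F] K) c5 := by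
        rw [Algebra.TensorProduct.tmul_pow, one_pow, hc5]
        rfl
      rw [this]
      exact Algebra.commutes c5 b)
    (by
      intro hall
      obtain ⟨c, hc⟩ := hcen u (by
        intro y
        apply hinj
        have := hall (y ⊗ₜ[F] (1 : K))
        rwa [Algebra.TensorProduct.tmul_mul_tmul, Algebra.TensorProduct.tmul_mul_tmul,
          one_mul] at this)
      exact hu c hc.symm)
    (by
      have key : ∀ (j : ℕ) (x : D) (y : K),
          ((Algebra.TensorProduct.congr (AlgEquiv.refl : D ≃ₐ[F] D) s).toRingEquiv ^ j)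
            (x ⊗ₜ[F] y) = x ⊗ₜ[F] ((s ^ j) y) := by
        intro j
        induction j with
        | zero =>
          intro x y
          rfl
        | succ j ih =>
          intro x y
          rw [pow_succ', pow_succ']
          change (Algebra.TensorProduct.congr (AlgEquiv.refl : D ≃ₐ[F] D) s).toRingEquiv
            (((Algebra.TensorProduct.congr (AlgEquiv.refl : D ≃ₐ[F] D) s).toRingEquiv ^ j)
              (x ⊗ₜ[F] y)) = x ⊗ₜ[F] (s ((s ^ j) y))
          rw [ih]
          rfl
      intro a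
      induction a using TensorProduct.induction_on with
      | zero => exact map_zero _
      | tmul x y =>
        rw [key, hsm]
        rfl
      | add x y hx hy => rw [map_add, hx, hy])
    (by
      change (1 : D) ⊗ₜ[F] (s ζ) = _
      rw [Algebra.TensorProduct.tmul_pow, one_pow, hsζ])
    (by
      change u ⊗ₜ[F] (s 1) = _
      rw [map_one])
    (fun a b ha hb => comm_tensor hcen hdim hu ha hb)
  obtain ⟨d, hd⟩ := fixed_tensor s hfix (a := w) h1
  have hv : v = u⁻¹ ⊗ₜ[F] (1 : K) := by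
    have e1 : (u ⊗ₜ[F] (1 : K)) * (u⁻¹ ⊗ₜ[F] (1 : K)) = 1 := by
      rw [Algebra.TensorProduct.tmul_mul_tmul, mul_inv_cancel₀ hu0, one_mul]
      rfl
    calc v = v * ((u ⊗ₜ[F] (1 : K)) * (u⁻¹ ⊗ₜ[F] (1 : K))) := by rw [e1, mul_one]
      _ = _ := by rw [← mul_assoc, h3, one_mul]
  refine ⟨d, ?_, ?_⟩
  · intro hcomm
    apply h2
    rw [hd, Algebra.TensorProduct.tmul_mul_tmul, Algebra.TensorProduct.tmul_mul_tmul, hcomm]
  · apply hinj
    rw [hd, hv] at h4
    simpa only [Algebra.TensorProduct.tmul_mul_tmul, one_mul, mul_one] using h4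

end Pool.Agent.Helper96.AL
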