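import Mathlib
import Pool.Agent.Helper96.CY.B0
import Pool.Agent.Helper96.AL.T2

/-!
PROJECT AL, piece T6. From `w` to a cyclic maximal subfield.

Proof: `L` = centraliser of `w`; it is commutative (`comm_D`), a field, and `[L : F]` divides 25
(`D` is an `L`-space), is not 1 (`w` is not in `F`) and not 25 (`w` is not central), so it is 5.
`u w u⁻¹` commutes with `w` and is not in `F`, hence (`comm_D` again) `u L u⁻¹` is contained in `L`
and conjugation by `u` is an automorphism `s` of `L` over `F`, `s ≠ 1`, `s^5 = 1` (`u^5` central):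
the group of automorphisms of `L` has at least 5 = `[L : F]` elements, so `L` is Galois
(`IsGalois.of_card_aut_eq_finrank`) with group of order 5, cyclic (`isCyclic_of_prime_card`).
-/

namespace Pool.Agent.Helper96.AL

theorem t6_dvd {F D K : Type*} [Field F] [DivisionRing D] [Algebra F D] [Field K] [Algebra F K]
    (φ : K →ₐ[F] D) : Module.finrank F K ∣ Module.finrank F D := by
  letI : Module K D := Module.compHom D φ.toRingHom
  have hsm : ∀ (k : K) (d : D), k • d = φ k * d := fun _ _ => rfl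
  haveI : IsScalarTower F K D := ⟨fun r k d => by
    rw [hsm, hsm, map_smul, smul_mul_assoc]⟩
  exact Dvd.intro _ (Module.finrank_mul_finrank F K D)

theorem t6_gal {F L : Type*} [Field F] [Field L] [Algebra F L] (h5 : Module.finrank F L = 5)
    (s : L →ₐ[F] L) {w : L} (hw : s w ≠ w) (hs : ∀ x, s (s (s (s (s x)))) = x) :
    IsGalois F L ∧ IsCyclic (L ≃ₐ[F] L) := by
  haveI : FiniteDimensional F L := Module.finite_of_finrank_pos (by omega)
  let s' : L →ₐ[F] L := ((s.comp s).comp s).comp s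
  have e1 : s.comp s' = AlgHom.id F L := by
    ext x
    exact hs x
  have e2 : s'.comp s = AlgHom.id F L := by
    ext x
    exact hs x
  let t : L ≃ₐ[F] L := AlgEquiv.ofAlgHom s s' e1 e2
  have ht : ∀ x, t x = s x := fun _ => rfl
  have ht1 : t ≠ 1 := by
    intro h
    apply hw
    rw [← ht, h]
    rfl
  have ht5 : t ^ 5 = 1 := by
    ext x
    show (t ^ 5) x = x
    have : t ^ 5 = t * (t * (t * (t * t))) := by
      simp [pow_succ, mul_assoc]
    rw [this]
    exact hs x
  haveI : Fact (Nat.Prime 5) := ⟨by norm_num⟩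
  have hord : orderOf t = 5 := orderOf_eq_prime ht5 ht1
  have hle : Fintype.card (L ≃ₐ[F] L) ≤ 5 := by
    rw [← h5]
    exact AlgEquiv.card_le
  have hdv : 5 ∣ Fintype.card (L ≃ₐ[F] L) := by
    rw [← hord]
    exact orderOf_dvd_card
  have hpos : 0 < Fintype.card (L ≃ₐ[F] L) := Fintype.card_pos
  have hc : Fintype.card (L ≃ₐ[F] L) = 5 := by
    obtain ⟨c, hc⟩ := hdv
    omega
  have hc' : Nat.card (L ≃ₐ[F] L) = 5 := by rw [Nat.card_eq_fintype_card, hc]
  have hG : IsGalois F L := IsGalois.of_card_aut_eq_finrank F L (by rw [hc', h5])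
  exact ⟨hG, isCyclic_of_prime_card hc'⟩

theorem exists_cyclic {F D : Type*} [Field F] [DivisionRing D] [Algebra F D]
    (hcen : ∀ x : D, (∀ y, x * y = y * x) → ∃ c : F, algebraMap F D c = x)
    (hdim : Module.finrank F D = 25) {u w : D}
    (hu5 : ∃ c : F, u ^ 5 = algebraMap F D c) (huw : u * w ≠ w * u)
    (hw : (u * w * u⁻¹) * w = w * (u * w * u⁻¹)) :
    ∃ (L : Subalgebra F D) (hL : IsField L),
      Module.finrank F L = 5 ∧ w ∈ L ∧ (∀ x ∈ L, u * x * u⁻¹ ∈ L) ∧
      (letI := hL.toField; IsGalois F L ∧ IsCyclic (L ≃ₐ[F] L)) := by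
  have : FiniteDimensional F D := Module.finite_of_finrank_pos (by omega)
  have hu0 : u ≠ 0 := by
    rintro rfl
    exact huw (by simp)
  have hui : u⁻¹ * u = 1 := inv_mul_cancel₀ hu0
  have huj : u * u⁻¹ = 1 := mul_inv_cancel₀ hu0
  have hwF : ∀ c : F, w ≠ algebraMap F D c := by
    rintro c rfl
    exact huw (Algebra.commutes c u).symm
  have hvF : ∀ c : F, u * w * u⁻¹ ≠ algebraMap F D c := by
    intro c hc
    apply hwF c
    have : w = u⁻¹ * (u * w * u⁻¹) * u := by
      rw [show u⁻¹ * (u * w * u⁻¹) * u = (u⁻¹ * u) * w * (u⁻¹ * u) by simp only [mul_assoc], hui]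
      simp
    rw [this, hc, ← Algebra.commutes, mul_assoc, hui, mul_one]
  let L : Subalgebra F D := Subalgebra.centralizer F {w}
  have hmem : ∀ x : D, x ∈ L ↔ w * x = x * w := by
    intro x
    simp [L, Subalgebra.mem_centralizer_iff]
  have hwL : w ∈ L := (hmem w).2 rfl
  have hcomm : ∀ x ∈ L, ∀ y ∈ L, x * y = y * x := fun x hx y hy =>
    comm_D hcen hdim hwF ((hmem x).1 hx).symm ((hmem y).1 hy).symm
  have hconj : ∀ x ∈ L, u * x * u⁻¹ ∈ L := by
    intro x hx
    rw [hmem]
    have hx' := (hmem x).1 hx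
    have h1 : (u * x * u⁻¹) * (u * w * u⁻¹) = (u * w * u⁻¹) * (u * x * u⁻¹) := by
      rw [show (u * x * u⁻¹) * (u * w * u⁻¹) = u * x * (u⁻¹ * u) * w * u⁻¹ by
        simp only [mul_assoc], show (u * w * u⁻¹) * (u * x * u⁻¹) = u * w * (u⁻¹ * u) * x * u⁻¹ by
        simp only [mul_assoc], hui]
      simp only [mul_one]
      rw [mul_assoc u x w, mul_assoc u w x, hx']
    exact (comm_D hcen hdim hvF h1 hw.symm).symm
  have hL : IsField L := by
    refine ⟨⟨0, 1, zero_ne_one⟩, ?_, ?_⟩
    · intro x y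
      exact Subtype.ext (hcomm x x.2 y y.2)
    · intro a ha
      have ha0 : (a : D) ≠ 0 := fun h => ha (Subtype.ext h)
      refine ⟨⟨(a : D)⁻¹, ?_⟩, ?_⟩
      · rw [hmem]
        have h1 := (hmem a).1 a.2
        calc w * (a : D)⁻¹ = (a : D)⁻¹ * ((a : D) * w) * (a : D)⁻¹ := by
              rw [← mul_assoc, inv_mul_cancel₀ ha0, one_mul]
          _ = (a : D)⁻¹ * w := by
              rw [← h1, mul_assoc, mul_assoc, mul_inv_cancel₀ ha0, mul_one]
      · apply Subtype.ext
        exact mul_inv_cancel₀ ha0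
  have hdv : Module.finrank F L ∣ 25 := by
    letI := hL.toField
    have := t6_dvd (F := F) (D := D) (K := L) L.val
    rwa [hdim] at this
  have h5 : Module.finrank F L = 5 := by
    have hcases : ∀ n : ℕ, n ∣ 25 → n = 1 ∨ n = 5 ∨ n = 25 := by
      intro n hn
      have hn' : n ≤ 25 := Nat.le_of_dvd (by norm_num) hn
      interval_cases n <;> omega
    rcases hcases _ hdv with h | h | h
    · exfalso
      have hbot : L = ⊥ := Subalgebra.eq_bot_of_finrank_one h
      rw [hbot] at hwL
      obtain ⟨c, hc⟩ := Algebra.mem_bot.1 hwL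
      exact hwF c hc.symm
    · exact h
    · exfalso
      have htop : Subalgebra.toSubmodule L = ⊤ := by
        apply Submodule.eq_top_of_finrank_eq
        rw [hdim]
        exact h
      have hu : u ∈ Subalgebra.toSubmodule L := by rw [htop]; trivial
      exact huw ((hmem u).1 hu).symm
  refine ⟨L, hL, h5, hwL, hconj, ?_⟩
  obtain ⟨c, hc⟩ := hu5
  let s : L →ₐ[F] L :=
    { toFun := fun x => ⟨u * x * u⁻¹, hconj x x.2⟩
      map_one' := Subtype.ext (by simp [huj])
      map_mul' := fun x y => Subtype.ext (by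
        show u * ((x : D) * y) * u⁻¹ = (u * x * u⁻¹) * (u * y * u⁻¹)
        rw [show (u * (x : D) * u⁻¹) * (u * y * u⁻¹) = u * x * (u⁻¹ * u) * y * u⁻¹ by
          simp only [mul_assoc], hui]
        simp only [mul_one, mul_assoc])
      map_zero' := Subtype.ext (by simp)
      map_add' := fun x y => Subtype.ext (by
        show u * ((x : D) + y) * u⁻¹ = u * x * u⁻¹ + u * y * u⁻¹
        rw [mul_add, add_mul])
      commutes' := fun r => Subtype.ext (by
        show u * algebraMap F D r * u⁻¹ = algebraMap F D r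
        rw [← Algebra.commutes, mul_assoc, huj, mul_one]) }
  have hs : ∀ x : L, ((s x : L) : D) = u * x * u⁻¹ := fun _ => rfl
  have hs5 : ∀ x : L, s (s (s (s (s x)))) = x := by
    intro x
    apply Subtype.ext
    rw [hs, hs, hs, hs, hs]
    have hcu : u ^ 5 * (x : D) = x * u ^ 5 := by
      rw [hc, Algebra.commutes]
    have h5u : u ^ 5 = u * (u * (u * (u * u))) := by
      simp only [pow_succ, pow_zero, one_mul, mul_assoc]
    calc u * (u * (u * (u * (u * (x : D) * u⁻¹) * u⁻¹) * u⁻¹) * u⁻¹) * u⁻¹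
        = (u * (u * (u * (u * u)))) * x * (u⁻¹ * (u⁻¹ * (u⁻¹ * (u⁻¹ * u⁻¹)))) := by
          simp only [mul_assoc]
      _ = x * ((u * (u * (u * (u * u)))) * (u⁻¹ * (u⁻¹ * (u⁻¹ * (u⁻¹ * u⁻¹))))) := by
          rw [← h5u, hcu, mul_assoc]
      _ = x := by
          have : (u * (u * (u * (u * u)))) * (u⁻¹ * (u⁻¹ * (u⁻¹ * (u⁻¹ * u⁻¹)))) = 1 := by
            simp only [mul_assoc]
            simp [hu0]
          rw [this, mul_one]
  have hsw : s ⟨w, hwL⟩ ≠ ⟨w, hwL⟩ := by
    intro h
    have h1 := congrArg (fun y : L => (y : D)) h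
    have h2 : u * w * u⁻¹ = w := h1
    apply huw
    calc u * w = (u * w * u⁻¹) * u := by rw [mul_assoc, hui, mul_one]
      _ = w * u := by rw [h2]
  letI := hL.toField
  exact t6_gal (F := F) (L := L) h5 s (w := ⟨w, hwL⟩) hsw hs5

end Pool.Agent.Helper96.AL
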