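import Mathlib
import Pool.Agent.Helper76.C5.St.M2
import Pool.Agent.Helper96.CY.R2

/-!
PROJECT AL: every central division algebra of dimension 25 contains a noncentral element whose
fifth power is central (from helper76's theorem on forms of `M_5`).
-/

namespace Pool.Agent.Helper96.AL

open Pool.Agent.Helper58.CY

theorem not_finite {F D : Type*} [Field F] [Finite F] [DivisionRing D] [Algebra F D]
    (hcen : ∀ x : D, (∀ y, x * y = y * x) → ∃ c : F, algebraMap F D c = x)
    (hdim : Module.finrank F D = 25) : False := by
  have hfd : FiniteDimensional F D := Module.finite_of_finrank_pos (by omega)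
  have hD : Finite D := Module.finite_of_finite F
  have hcomm : ∀ x y : D, x * y = y * x := by
    intro x y
    exact @mul_comm D (littleWedderburn D).toCommRing.toCommMonoid.toCommSemigroup.toCommMagma x y
  have h1 : Module.finrank F D ≤ 1 := by
    apply finrank_le_one (1 : D)
    intro x
    obtain ⟨c, hc⟩ := hcen x (hcomm x)
    exact ⟨c, by rw [← hc, Algebra.algebraMap_eq_smul_one]⟩
  omega

theorem exists_five_central {F D : Type*} [Field F] [DivisionRing D] [Algebra F D]
    (hcen : ∀ x : D, (∀ y, x * y = y * x) → ∃ c : F, algebraMap F D c = x)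
    (hdim : Module.finrank F D = 25) :
    ∃ u : D, (∀ c : F, u ≠ algebraMap F D c) ∧ ∃ c : F, u ^ 5 = algebraMap F D c := by
  rcases finite_or_infinite F with hF | hF
  · exact (not_finite hcen hdim).elim
  · obtain ⟨φ, hφ, hform⟩ := Pool.Agent.Helper96.CY.exists_form (F := F) (D := D)
      (Ω := AlgebraicClosure F) hcen hdim
    obtain ⟨z, ⟨u, rfl⟩, hz, c, -, hc⟩ := Pool.Agent.Helper76.C5.M2 φ.range hform
    refine ⟨u, ?_, ?_⟩
    · intro a ha
      apply hz (algebraMap F (AlgebraicClosure F) a)
      change φ u = _
      rw [ha, AlgHom.commutes, Algebra.algebraMap_eq_smul_one, algebraMap_smul]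
    · have h5 : φ (u ^ 5) = c • (1 : M5 (AlgebraicClosure F)) := by
        rw [map_pow]; exact hc
      obtain ⟨a, ha⟩ := hcen (u ^ 5) (fun y => by
        apply hφ
        rw [map_mul, map_mul, h5, smul_mul_assoc, one_mul, mul_smul_comm, mul_one])
      exact ⟨a, ha.symm⟩

end Pool.Agent.Helper96.AL
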