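import Mathlib

/-!
PROJECT AL (Albert's theorem for division algebras of degree `p`, here used for `p = 5`):
definitions. `A` is a division ring (later `D ⊗ F(ζ)`), `τ` an automorphism of `A` of order `m`
(later `id ⊗` generator of `Gal(F(ζ)/F)`), `ζ` a central primitive `p`-th root of unity with
`τ ζ = ζ^k`, `u` a `τ`-fixed noncentral element with central `p`-th power.
-/

namespace Pool.Agent.Helper96.AL

/-- central elements -/
def Cen {A : Type*} [Mul A] (a : A) : Prop := ∀ b : A, a * b = b * a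

structure AD (p m k : ℕ) {A : Type*} [DivisionRing A] (τ : A ≃+* A) (ζ u : A) : Prop where
  hp : p.Prime
  hm : 0 < m
  hmp : m < p
  hk : (k : ZMod p) ^ m = 1
  hkj : ∀ j, 0 < j → j < m → (k : ZMod p) ^ j ≠ 1
  pne : (p : A) ≠ 0
  ζc : Cen ζ
  ζp : ζ ^ p = 1
  ζ1 : ζ ≠ 1
  u0 : u ≠ 0
  up : Cen (u ^ p)
  unc : ¬ Cen u
  τm : ∀ a, (τ ^ m) a = a
  τζ : τ ζ = ζ ^ k
  τu : τ u = u
  comm : ∀ a b : A, a * u = u * a → b * u = u * b → a * b = b * a

/-- the commutative field `M = ` centraliser of `u`, given as an abstract field with an embedding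
`ι`; `σ` is conjugation by `z`, `t` is `τ` on `M`. -/
structure FD (p m k : ℕ) {A : Type*} [DivisionRing A] (τ : A ≃+* A) (ζ u z : A)
    {M : Type*} [Field M] (ι : M →+* A) (σ t : M ≃+* M) : Prop where
  ad : AD p m k τ ζ u
  z0 : z ≠ 0
  hz : u * z = ζ * z * u
  rng : ∀ a : A, a * u = u * a ↔ ∃ f : M, ι f = a
  hσ : ∀ f : M, ι (σ f) * z = z * ι f
  ht : ∀ f : M, ι (t f) = τ (ι f)

end Pool.Agent.Helper96.AL
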