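import Pool.Agent.Helper96.AL.Defs

/-!
PROJECT AL, piece L1. Eigenvectors of conjugation by `u`.

Proof. `c(x) = u x u^(-1)` has `c^p = id` (`u^p` central). For `a` in `A` and `i < p` put
`a_i = p^(-1) ∑_{j<p} ζ^(-i j) c^j(a)` (`ζ`, `p` are central, `τ` plays no role); then
`u a_i = ζ^i a_i u` and `a = ∑ a_i` (`∑_{i<p} ζ^(-ij)` is `p` for `j = 0` and `0` for `0 < j < p`,
because `ζ` is a primitive `p`-th root of unity). `exists_z`: `u` is not central, so for some `a`,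
`a ≠ a_0`, some `a_i ≠ 0` with `0 < i < p`; take `z = a_i ^ i'`, `i i' = 1` mod `p`.
`decomp`: `c i = a_i * (z^i)⁻¹` commutes with `u`.
-/

namespace Pool.Agent.Helper96.AL

variable {p m k : ℕ} {A : Type*} [DivisionRing A] {τ : A ≃+* A} {ζ u : A}

theorem l1_ord (h : AD p m k τ ζ u) : orderOf ζ = p := by
  have := Fact.mk h.hp
  exact orderOf_eq_prime h.ζp h.ζ1

theorem l1_z0 (h : AD p m k τ ζ u) : ζ ≠ 0 := by
  intro h0
  have h1 := h.ζp
  rw [h0, zero_pow h.hp.ne_zero] at h1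
  exact zero_ne_one h1

theorem l1_invc (h : AD p m k τ ζ u) : Cen ζ⁻¹ := by
  intro b
  have h1 := h.ζc b
  have hz := l1_z0 h
  calc ζ⁻¹ * b = ζ⁻¹ * (b * ζ) * ζ⁻¹ := by
        rw [mul_assoc, mul_assoc, mul_inv_cancel₀ hz, mul_one]
    _ = ζ⁻¹ * (ζ * b) * ζ⁻¹ := by rw [h1]
    _ = b * ζ⁻¹ := by rw [← mul_assoc, inv_mul_cancel₀ hz, one_mul]

theorem l1_cenpow {x : A} (hx : Cen x) (n : ℕ) : Cen (x ^ n) := by
  intro b
  exact (Commute.pow_left (hx b) n).eq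

/-- the component -/
noncomputable def l1f (ζ u : A) (i : ℕ) (a : A) (j : ℕ) : A :=
  (ζ⁻¹) ^ (i * j) * (u ^ j * a * (u⁻¹) ^ j)

/-- the projection -/
noncomputable def l1P (p : ℕ) (ζ u : A) (i : ℕ) (a : A) : A :=
  (p : A)⁻¹ * ∑ j ∈ Finset.range p, l1f ζ u i a j

theorem l1_step (h : AD p m k τ ζ u) (i : ℕ) (a : A) (j : ℕ) :
    u * l1f ζ u i a j = ζ ^ i * l1f ζ u i a (j + 1) * u := by
  have hc := l1_cenpow (l1_invc h)
  have hz := l1_z0 h
  have e1 : ζ ^ i * (ζ⁻¹) ^ (i * (j + 1)) = (ζ⁻¹) ^ (i * j) := by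
    have e2 : ζ ^ i * (ζ⁻¹) ^ i = 1 := by
      rw [inv_pow]
      exact mul_inv_cancel₀ (pow_ne_zero _ hz)
    rw [mul_add, mul_one, pow_add, hc (i * j) ((ζ⁻¹) ^ i), ← mul_assoc, e2, one_mul]
  unfold l1f
  rw [← mul_assoc u, ← hc, mul_assoc, ← mul_assoc (ζ ^ i), e1, mul_assoc ((ζ⁻¹) ^ (i * j))]
  congr 1
  rw [pow_succ' u j, pow_succ (u⁻¹) j]
  simp only [mul_assoc]
  rw [inv_mul_cancel₀ h.u0, mul_one]

theorem l1_end (h : AD p m k τ ζ u) (i : ℕ) (a : A) : l1f ζ u i a p = l1f ζ u i a 0 := by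
  unfold l1f
  have e1 : (ζ⁻¹) ^ (i * p) = 1 := by
    rw [mul_comm, pow_mul, inv_pow, h.ζp, inv_one, one_pow]
  rw [e1, h.up, mul_assoc, inv_pow, mul_inv_cancel₀ (pow_ne_zero _ h.u0)]
  simp

theorem l1_sum (h : AD p m k τ ζ u) (i : ℕ) (a : A) :
    ∑ j ∈ Finset.range p, l1f ζ u i a (j + 1) = ∑ j ∈ Finset.range p, l1f ζ u i a j := by
  have h1 := Finset.sum_range_succ (fun j => l1f ζ u i a j) p
  have h2 := Finset.sum_range_succ' (fun j => l1f ζ u i a j) p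
  have h3 := h1.symm.trans h2
  rw [l1_end h] at h3
  exact (add_right_cancel h3).symm

theorem l1_P (h : AD p m k τ ζ u) (i : ℕ) (a : A) :
    u * l1P p ζ u i a = ζ ^ i * l1P p ζ u i a * u := by
  have hp : Cen ((p : A)⁻¹) := by
    intro b
    have h1 : (p : A) * b = b * (p : A) := Nat.cast_comm p b
    calc (p : A)⁻¹ * b = (p : A)⁻¹ * (b * (p : A)) * (p : A)⁻¹ := by
          rw [mul_assoc, mul_assoc, mul_inv_cancel₀ h.pne, mul_one]
      _ = (p : A)⁻¹ * ((p : A) * b) * (p : A)⁻¹ := by rw [h1]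
      _ = b * (p : A)⁻¹ := by rw [← mul_assoc, inv_mul_cancel₀ h.pne, one_mul]
  unfold l1P
  rw [← mul_assoc u, ← hp, mul_assoc, Finset.mul_sum,
    Finset.sum_congr rfl (fun j _ => l1_step h i a j), ← Finset.sum_mul, ← Finset.mul_sum,
    l1_sum h, ← mul_assoc, ← mul_assoc, hp, ← mul_assoc]

theorem l1_total (h : AD p m k τ ζ u) (a : A) :
    a = ∑ i ∈ Finset.range p, l1P p ζ u i a := by
  unfold l1P
  rw [← Finset.mul_sum, Finset.sum_comm]
  have key : ∀ j ∈ Finset.range p, ∑ i ∈ Finset.range p, l1f ζ u i a j =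
      if j = 0 then (p : A) * a else 0 := by
    intro j hj
    rw [Finset.mem_range] at hj
    unfold l1f
    rw [← Finset.sum_mul]
    split_ifs with h0
    · subst h0
      simp
    · have hx : (ζ⁻¹) ^ j ≠ 1 := by
        rw [inv_pow]
        intro h1
        rw [inv_eq_one] at h1
        have h2 : orderOf ζ ∣ j := orderOf_dvd_of_pow_eq_one h1
        rw [l1_ord h] at h2
        exact absurd (Nat.le_of_dvd (Nat.pos_of_ne_zero h0) h2) (not_le.mpr hj)
      have h1 : ∑ i ∈ Finset.range p, (ζ⁻¹) ^ (i * j) = 0 := by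
        have h2 : ∑ i ∈ Finset.range p, (ζ⁻¹) ^ (i * j) =
            ∑ i ∈ Finset.range p, ((ζ⁻¹) ^ j) ^ i := by
          apply Finset.sum_congr rfl
          intro i _
          rw [← pow_mul, mul_comm]
        rw [h2]
        have h3 := geom_sum_mul ((ζ⁻¹) ^ j) p
        have h5 : (ζ⁻¹) ^ p = 1 := by rw [inv_pow, h.ζp, inv_one]
        rw [← pow_mul, mul_comm j p, pow_mul, h5, one_pow, sub_self] at h3
        rcases mul_eq_zero.mp h3 with h4 | h4
        · exact h4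
        · exact absurd (sub_eq_zero.mp h4) hx
      rw [h1, zero_mul]
  rw [Finset.sum_congr rfl key, Finset.sum_ite_eq' (Finset.range p) 0 (fun _ => (p : A) * a),
    if_pos (Finset.mem_range.mpr h.hp.pos), ← mul_assoc, inv_mul_cancel₀ h.pne, one_mul]

theorem l1_pow (h : AD p m k τ ζ u) {w : A} {i : ℕ} (hw : u * w = ζ ^ i * w * u) (n : ℕ) :
    u * w ^ n = ζ ^ (i * n) * w ^ n * u := by
  induction n with
  | zero => simp
  | succ n ih =>
    have hc := l1_cenpow h.ζc i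
    calc u * w ^ (n + 1) = u * w ^ n * w := by rw [pow_succ, mul_assoc]
      _ = ζ ^ (i * n) * w ^ n * (u * w) := by rw [ih, mul_assoc]
      _ = ζ ^ (i * n) * (w ^ n * ζ ^ i) * w * u := by rw [hw]; simp only [mul_assoc]
      _ = ζ ^ (i * (n + 1)) * w ^ (n + 1) * u := by
        rw [← hc (w ^ n), mul_add, mul_one, pow_add, pow_succ w]
        simp only [mul_assoc]

theorem exists_z (h : AD p m k τ ζ u) : ∃ z : A, z ≠ 0 ∧ u * z = ζ * z * u := by
  have h1 : ∃ b : A, u * b ≠ b * u := by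
    by_contra hcon
    push Not at hcon
    exact h.unc hcon
  obtain ⟨b, hb⟩ := h1
  have h2 : ∃ i, 0 < i ∧ i < p ∧ l1P p ζ u i b ≠ 0 := by
    by_contra hcon
    push Not at hcon
    apply hb
    have h3 := l1_total h b
    rw [Finset.sum_eq_single_of_mem 0 (Finset.mem_range.mpr h.hp.pos)
      (fun i hi hi0 => hcon i (Nat.pos_of_ne_zero hi0) (Finset.mem_range.mp hi))] at h3
    have h4 := l1_P h 0 b
    rw [← h3, pow_zero, one_mul] at h4
    exact h4
  obtain ⟨i, hi0, hip, hw⟩ := h2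
  have hcop : Nat.Coprime i p :=
    ((Nat.Prime.coprime_iff_not_dvd h.hp).mpr
      (fun hd => absurd (Nat.le_of_dvd hi0 hd) (not_le.mpr hip))).symm
  obtain ⟨n, hn⟩ := Nat.exists_mul_mod_eq_one_of_coprime hcop h.hp.one_lt
  refine ⟨(l1P p ζ u i b) ^ n, pow_ne_zero _ hw, ?_⟩
  have h5 := l1_pow h (l1_P h i b) n
  have h6 : ζ ^ (i * n) = ζ := by
    rw [← Nat.div_add_mod (i * n) p, hn.2, pow_add, pow_mul, h.ζp, one_pow, one_mul, pow_one]
  rw [h6] at h5
  exact h5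

theorem decomp (h : AD p m k τ ζ u) {z : A} (hz0 : z ≠ 0) (hz : u * z = ζ * z * u) (a : A) :
    ∃ c : ℕ → A, (∀ i, c i * u = u * c i) ∧ a = ∑ i ∈ Finset.range p, c i * z ^ i := by
  refine ⟨fun i => l1P p ζ u i a * (z ^ i)⁻¹, ?_, ?_⟩
  · intro i
    have h1 := l1_P h i a
    have h2 : u * z ^ i = ζ ^ i * z ^ i * u := by
      have := l1_pow h (w := z) (i := 1) (by rw [pow_one]; exact hz) i
      rwa [one_mul] at this
    have hzi : z ^ i ≠ 0 := pow_ne_zero _ hz0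
    have hc := l1_cenpow h.ζc i
    have h3 : (z ^ i)⁻¹ * u = ζ ^ i * (u * (z ^ i)⁻¹) := by
      calc (z ^ i)⁻¹ * u = (z ^ i)⁻¹ * (u * z ^ i) * (z ^ i)⁻¹ := by
            rw [mul_assoc, mul_assoc, mul_inv_cancel₀ hzi, mul_one]
        _ = (z ^ i)⁻¹ * (z ^ i * ζ ^ i * u) * (z ^ i)⁻¹ := by rw [h2, hc]
        _ = ζ ^ i * (u * (z ^ i)⁻¹) := by
            rw [mul_assoc (z ^ i), ← mul_assoc ((z ^ i)⁻¹), inv_mul_cancel₀ hzi, one_mul,
              mul_assoc]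
    change l1P p ζ u i a * (z ^ i)⁻¹ * u = u * (l1P p ζ u i a * (z ^ i)⁻¹)
    rw [mul_assoc, h3, ← mul_assoc u, h1, hc (l1P p ζ u i a), mul_assoc, mul_assoc]
  · conv_lhs => rw [l1_total h a]
    apply Finset.sum_congr rfl
    intro i _
    rw [mul_assoc, inv_mul_cancel₀ (pow_ne_zero _ hz0), mul_one]

end Pool.Agent.Helper96.AL
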