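import Pool.Agent.Helper96.AL.L1

/-!
PROJECT AL, piece L2. Centrality.

`zpow_central`: `z^p` commutes with `u` (`u z^p = ζ^p z^p u`), hence with everything commuting with
`u` (`comm`), and with `z`, hence with all of `A` by `decomp`. `central_of_comm`: `a` commutes with
`u`, so with all `c i` of `decomp`, and with `z`. `deg_comm`: if `u w = ζ^j w u` then
`w * (z^j)⁻¹` commutes with `u`. `pow_deg`: `u z^j = ζ^j z^j u`. `root`: a central `e` with
`e^p = 1` is a power of `ζ` (the polynomial `X^p - 1` over the field `Subring.center A` has the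
`p` distinct roots `ζ^i`, `i < p`).
-/

namespace Pool.Agent.Helper96.AL

variable {p m k : ℕ} {A : Type*} [DivisionRing A] {τ : A ≃+* A} {ζ u : A}

private theorem l2_cen_pow {c : A} (hc : Cen c) (j : ℕ) : Cen (c ^ j) := by
  intro b
  have h1 : Commute c b := hc b
  exact h1.pow_left j

private theorem l2_pow (h : AD p m k τ ζ u) {z : A} (hz : u * z = ζ * z * u) (j : ℕ) :
    u * z ^ j = ζ ^ j * z ^ j * u := by
  induction j with
  | zero => simp
  | succ j ih =>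
    rw [pow_succ z j, ← mul_assoc, ih, mul_assoc, hz, pow_succ ζ j, mul_assoc, mul_assoc,
      mul_assoc, mul_assoc]
    congr 1
    rw [← mul_assoc (z ^ j) ζ, ← h.ζc (z ^ j), mul_assoc, mul_assoc]

theorem zpow_central (h : AD p m k τ ζ u) {z : A} (hz0 : z ≠ 0) (hz : u * z = ζ * z * u) :
    Cen (z ^ p) := by
  have hpz : z ^ p * u = u * z ^ p := by
    have h1 := l2_pow h hz p
    rw [h.ζp, one_mul] at h1
    exact h1.symm
  intro a
  obtain ⟨c, hc, ha⟩ := decomp h hz0 hz a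
  rw [ha, Finset.mul_sum, Finset.sum_mul]
  refine Finset.sum_congr rfl fun i _ => ?_
  rw [← mul_assoc, h.comm _ _ hpz (hc i), mul_assoc, mul_assoc]
  congr 1
  exact (Commute.refl z).pow_pow p i

theorem central_of_comm (h : AD p m k τ ζ u) {z : A} (hz0 : z ≠ 0) (hz : u * z = ζ * z * u)
    {a : A} (ha : a * u = u * a) (haz : a * z = z * a) : Cen a := by
  intro b
  obtain ⟨c, hc, hb⟩ := decomp h hz0 hz b
  rw [hb, Finset.mul_sum, Finset.sum_mul]
  refine Finset.sum_congr rfl fun i _ => ?_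
  rw [← mul_assoc, h.comm _ _ ha (hc i), mul_assoc, mul_assoc]
  congr 1
  have h1 : Commute a z := haz
  exact h1.pow_right i

theorem pow_deg (h : AD p m k τ ζ u) {z : A} (hz : u * z = ζ * z * u) (j : ℕ) :
    u * z ^ j = ζ ^ j * z ^ j * u := l2_pow h hz j

theorem deg_comm (h : AD p m k τ ζ u) {z : A} (hz0 : z ≠ 0) (hz : u * z = ζ * z * u)
    {w : A} {j : ℕ} (hw : u * w = ζ ^ j * w * u) : (w * (z ^ j)⁻¹) * u = u * (w * (z ^ j)⁻¹) := by
  have hj := l2_pow h hz j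
  have hzj : z ^ j ≠ 0 := pow_ne_zero j hz0
  have hζ : Cen (ζ ^ j) := l2_cen_pow h.ζc j
  have h1 : (z ^ j)⁻¹ * u = ζ ^ j * (u * (z ^ j)⁻¹) := by
    have h2 : (z ^ j)⁻¹ * (u * z ^ j) * (z ^ j)⁻¹ = (z ^ j)⁻¹ * u := by
      rw [mul_assoc, mul_assoc, mul_inv_cancel₀ hzj, mul_one]
    rw [← h2, hj, ← mul_assoc ((z ^ j)⁻¹), ← mul_assoc ((z ^ j)⁻¹), ← hζ ((z ^ j)⁻¹),
      mul_assoc (ζ ^ j) ((z ^ j)⁻¹) (z ^ j), inv_mul_cancel₀ hzj, mul_one, mul_assoc]
  rw [mul_assoc, h1, ← mul_assoc, ← hζ w, ← mul_assoc (ζ ^ j * w), ← hw, mul_assoc]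

theorem root (h : AD p m k τ ζ u) {e : A} (he : Cen e) (hep : e ^ p = 1) :
    ∃ i : ℕ, i < p ∧ e = ζ ^ i := by
  have hc : ζ ∈ Subring.center A := Subring.mem_center_iff.2 fun g => (h.ζc g).symm
  have hec : e ∈ Subring.center A := Subring.mem_center_iff.2 fun g => (he g).symm
  have hne : NeZero p := ⟨h.hp.ne_zero⟩
  have hfact : Fact p.Prime := ⟨h.hp⟩
  have h1 : (⟨ζ, hc⟩ : Subring.center A) ^ p = 1 := by
    apply Subtype.ext
    exact h.ζp
  have h2 : (⟨ζ, hc⟩ : Subring.center A) ≠ 1 := by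
    intro h3
    exact h.ζ1 (congrArg Subtype.val h3)
  have h3 : IsPrimitiveRoot (⟨ζ, hc⟩ : Subring.center A) p := by
    have h4 := IsPrimitiveRoot.orderOf (⟨ζ, hc⟩ : Subring.center A)
    rw [orderOf_eq_prime h1 h2] at h4
    exact h4
  have h5 : (⟨e, hec⟩ : Subring.center A) ^ p = 1 := by
    apply Subtype.ext
    exact hep
  obtain ⟨i, hi, h6⟩ := h3.eq_pow_of_pow_eq_one h5
  refine ⟨i, hi, ?_⟩
  have h7 := congrArg Subtype.val h6
  exact h7.symm

end Pool.Agent.Helper96.AL
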