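import Pool.Agent.Helper96.AL.L2

/-!
PROJECT AL, piece L3. Existence of the field data.

`M = Subring.centralizer {u}` with the field structure coming from `comm` (it is closed under
inverses), `ι` the inclusion; conjugation by `z` maps the centraliser of `u` onto itself
(`z u z⁻¹ = ζ⁻¹ u`), and so does `τ` (`τ u = u`; for surjectivity `τ⁻¹ u = u`).
-/

namespace Pool.Agent.Helper96.AL

universe v

variable {p m k : ℕ} {A : Type v} [DivisionRing A] {τ : A ≃+* A} {ζ u : A}

theorem l3_restrict {M : Type v} [Field M] (ι : M →+* A) (P : A → Prop)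
    (hP : ∀ a, P a ↔ ∃ f, ι f = a) (e : A ≃+* A) (he : ∀ a, P a ↔ P (e a)) :
    ∃ s : M ≃+* M, ∀ f, ι (s f) = e (ι f) := by
  have h1 : ∀ f, ∃ g, ι g = e (ι f) := fun f => (hP _).1 ((he _).1 ((hP _).2 ⟨f, rfl⟩))
  have h2 : ∀ f, ∃ g, ι g = e.symm (ι f) := fun f =>
    (hP _).1 ((he _).2 (by rw [e.apply_symm_apply]; exact (hP _).2 ⟨f, rfl⟩))
  choose g hg using h1
  choose g' hg' using h2
  have inj := ι.injective
  refine ⟨{ toFun := g, invFun := g', left_inv := ?_, right_inv := ?_,
            map_mul' := ?_, map_add' := ?_ }, hg⟩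
  · intro f
    apply inj
    rw [hg', hg, e.symm_apply_apply]
  · intro f
    apply inj
    rw [hg, hg', e.apply_symm_apply]
  · intro a b
    apply inj
    rw [hg, map_mul, map_mul, map_mul, hg, hg]
  · intro a b
    apply inj
    rw [hg, map_add, map_add, map_add, hg, hg]

theorem l3_field (h : AD p m k τ ζ u) :
    ∃ (M : Type v) (_ : Field M) (ι : M →+* A), ∀ a : A, a * u = u * a ↔ ∃ f : M, ι f = a := by
  let S : Subfield A :=
    { Subring.centralizer {u} with
      inv_mem' := by
        intro x hx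
        have hx' : u * x = x * u := (Subring.mem_centralizer_iff.1 hx) u rfl
        refine Subring.mem_centralizer_iff.2 ?_
        intro g hg
        have hgu : g = u := hg
        subst hgu
        have h1 : Commute g x := hx'
        exact h1.inv_right₀ }
  have hS : ∀ a : A, a ∈ S ↔ a * u = u * a := by
    intro a
    constructor
    · intro ha
      exact ((Subring.mem_centralizer_iff.1 ha) u rfl).symm
    · intro ha
      refine Subring.mem_centralizer_iff.2 ?_
      intro g hg
      have hgu : g = u := hg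
      subst hgu
      exact ha.symm
  let F : Field S :=
    { (inferInstance : DivisionRing S) with
      mul_comm := fun a b => Subtype.ext (h.comm a b ((hS _).1 a.2) ((hS _).1 b.2)) }
  refine ⟨S, F, S.subtype, ?_⟩
  intro a
  rw [← hS]
  constructor
  · intro ha
    exact ⟨⟨a, ha⟩, rfl⟩
  · rintro ⟨f, rfl⟩
    exact f.2

/-- conjugation by a nonzero element -/
def l3_conj (z : A) (hz0 : z ≠ 0) : A ≃+* A where
  toFun a := z * a * z⁻¹
  invFun a := z⁻¹ * a * z
  left_inv a := by
    simp only [mul_assoc]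
    rw [inv_mul_cancel₀ hz0, mul_one, ← mul_assoc, inv_mul_cancel₀ hz0, one_mul]
  right_inv a := by
    simp only [mul_assoc]
    rw [mul_inv_cancel₀ hz0, mul_one, ← mul_assoc, mul_inv_cancel₀ hz0, one_mul]
  map_mul' a b := by
    have h1 : z * a * z⁻¹ * (z * b * z⁻¹) = z * a * (z⁻¹ * z) * b * z⁻¹ := by
      simp only [mul_assoc]
    rw [h1, inv_mul_cancel₀ hz0, mul_one]
    simp only [mul_assoc]
  map_add' a b := by
    rw [mul_add, add_mul]

theorem exists_FD (h : AD p m k τ ζ u) {z : A} (hz0 : z ≠ 0) (hz : u * z = ζ * z * u) :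
    ∃ (M : Type v) (_ : Field M) (ι : M →+* A) (σ t : M ≃+* M), FD p m k τ ζ u z ι σ t := by
  obtain ⟨M, F, ι, hrng⟩ := l3_field h
  have hζ0 : ζ ≠ 0 := by
    intro h0
    have h1 := h.ζp
    rw [h0, zero_pow h.hp.ne_zero] at h1
    exact zero_ne_one h1
  -- conjugation by `z` preserves the centraliser
  have hu : ∀ a : A, a * u = u * a ↔ (z * a * z⁻¹) * u = u * (z * a * z⁻¹) := by
    intro a
    have e1 : z⁻¹ * u = ζ * u * z⁻¹ := by
      have e2 : z⁻¹ * (u * z) * z⁻¹ = z⁻¹ * (ζ * z * u) * z⁻¹ := by rw [hz]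
      have e3 : z⁻¹ * (u * z) * z⁻¹ = z⁻¹ * u := by
        rw [mul_assoc, mul_assoc u, mul_inv_cancel₀ hz0, mul_one]
      have e4 : z⁻¹ * (ζ * z * u) * z⁻¹ = ζ * u * z⁻¹ := by
        rw [h.ζc z, mul_assoc z ζ u, ← mul_assoc z⁻¹ z, inv_mul_cancel₀ hz0, one_mul]
      rw [← e3, e2, e4]
    have e5 : (z * a * z⁻¹) * u = ζ * (z * (a * u) * z⁻¹) := by
      calc (z * a * z⁻¹) * u = z * a * (z⁻¹ * u) := by rw [mul_assoc]
        _ = z * a * (ζ * u * z⁻¹) := by rw [e1]
        _ = z * a * ζ * (u * z⁻¹) := by simp only [mul_assoc]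
        _ = ζ * (z * a) * (u * z⁻¹) := by rw [← h.ζc (z * a)]
        _ = ζ * (z * (a * u) * z⁻¹) := by simp only [mul_assoc]
    have e6 : u * (z * a * z⁻¹) = ζ * (z * (u * a) * z⁻¹) := by
      calc u * (z * a * z⁻¹) = (u * z) * (a * z⁻¹) := by simp only [mul_assoc]
        _ = (ζ * z * u) * (a * z⁻¹) := by rw [hz]
        _ = ζ * (z * (u * a) * z⁻¹) := by simp only [mul_assoc]
    rw [e5, e6]
    constructor
    · intro h1
      rw [h1]
    · intro h1
      have h2 := mul_left_cancel₀ hζ0 h1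
      have h3 := mul_right_cancel₀ (inv_ne_zero hz0) h2
      exact mul_left_cancel₀ hz0 h3
  have hτ : ∀ a : A, a * u = u * a ↔ (τ a) * u = u * (τ a) := by
    intro a
    constructor
    · intro h1
      have h2 : τ (a * u) = τ (u * a) := by rw [h1]
      rw [map_mul, map_mul, h.τu] at h2
      exact h2
    · intro h1
      apply τ.injective
      rw [map_mul, map_mul, h.τu]
      exact h1
  obtain ⟨σ, hσ⟩ := l3_restrict ι (fun a => a * u = u * a) hrng (l3_conj z hz0) hu
  obtain ⟨t, ht⟩ := l3_restrict ι (fun a => a * u = u * a) hrng τ hτ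
  refine ⟨M, F, ι, σ, t, ?_⟩
  refine { ad := h, z0 := hz0, hz := hz, rng := hrng, hσ := ?_, ht := ht }
  intro f
  rw [hσ f]
  change z * ι f * z⁻¹ * z = z * ι f
  rw [mul_assoc, inv_mul_cancel₀ hz0, mul_one]

end Pool.Agent.Helper96.AL
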