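import Mathlib

/-!
PROJECT AL, piece L5. Hilbert 90 for an automorphism `φ` of finite order `n` of a field.

Proof: Dedekind (`linearIndependent_monoidHom` / `linearIndependent_toLinearMap`): the maps `φ^j`,
`j < n`, are pairwise distinct, so some `x` has `y = ∑_{j<n} (∏_{i<j} (φ^i) g) * (φ^j) x ≠ 0`; then
`g * φ y = y` (the last term closes up because of `hN` and `φ^n = 1`).
-/

namespace Pool.Agent.Helper96.AL

/-- the monoid homomorphism underlying `φ ^ j` -/
private def l5_f {M : Type*} [Field M] (φ : M ≃+* M) (j : ℕ) : M →* M where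
  toFun := fun x => (φ ^ j) x
  map_one' := map_one _
  map_mul' := fun x y => map_mul _ x y

private theorem l5_inj {M : Type*} [Field M] (φ : M ≃+* M) (n : ℕ)
    (hd : ∀ j, 0 < j → j < n → φ ^ j ≠ 1) :
    Function.Injective (fun j : Fin n => l5_f φ j) := by
  have key : ∀ a b : ℕ, a < b → b < n → φ ^ a ≠ φ ^ b := by
    intro a b hab hb h
    apply hd (b - a) (by omega) (by omega)
    have h1 : φ ^ a * φ ^ (b - a) = φ ^ a * 1 := by
      rw [← pow_add, mul_one, h]
      congr 1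
      omega
    exact mul_left_cancel h1
  intro a b hab
  have hab' : φ ^ (a : ℕ) = φ ^ (b : ℕ) := by
    ext x
    exact DFunLike.congr_fun hab x
  rcases lt_trichotomy (a : ℕ) (b : ℕ) with h | h | h
  · exact absurd hab' (key _ _ h b.2)
  · exact Fin.ext h
  · exact absurd hab'.symm (key _ _ h a.2)

private theorem l5_step {M : Type*} [Field M] (φ : M ≃+* M) (g : M) (j : ℕ) :
    g * φ (∏ i ∈ Finset.range j, (φ ^ i) g) = ∏ i ∈ Finset.range (j + 1), (φ ^ i) g := by
  rw [Finset.prod_range_succ', map_prod, mul_comm]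
  congr 1
  apply Finset.prod_congr rfl
  intro i _
  rw [pow_succ']
  rfl

theorem hilbert90 {M : Type*} [Field M] (φ : M ≃+* M) (n : ℕ) (hn : 0 < n) (hφ : φ ^ n = 1)
    (hd : ∀ j, 0 < j → j < n → φ ^ j ≠ 1) (g : M)
    (hN : ∏ j ∈ Finset.range n, (φ ^ j) g = 1) : ∃ y : M, y ≠ 0 ∧ g * φ y = y := by
  classical
  have hlin : LinearIndependent M (fun j : Fin n => (l5_f φ j : M → M)) :=
    (linearIndependent_monoidHom M M).comp (fun j : Fin n => l5_f φ j) (l5_inj φ n hd)
  have hex : ∃ x : M, ∑ j ∈ Finset.range n, (∏ i ∈ Finset.range j, (φ ^ i) g) * (φ ^ j) x ≠ 0 := by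
    by_contra hcon
    push_neg at hcon
    have h0 := Fintype.linearIndependent_iff.1 hlin
      (fun j : Fin n => ∏ i ∈ Finset.range (j : ℕ), (φ ^ i) g) (by
        funext x
        have hx := hcon x
        rw [← Fin.sum_univ_eq_sum_range
          (fun j => (∏ i ∈ Finset.range j, (φ ^ i) g) * (φ ^ j) x) n] at hx
        rw [Finset.sum_apply]
        exact hx) ⟨0, hn⟩
    simp at h0
  obtain ⟨x, hx⟩ := hex
  refine ⟨_, hx, ?_⟩
  rw [map_sum, Finset.mul_sum]
  have h1 : ∀ j ∈ Finset.range n,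
      g * φ ((∏ i ∈ Finset.range j, (φ ^ i) g) * (φ ^ j) x) =
        (∏ i ∈ Finset.range (j + 1), (φ ^ i) g) * (φ ^ (j + 1)) x := by
    intro j _
    rw [map_mul, ← mul_assoc, l5_step, pow_succ' φ j]
    rfl
  rw [Finset.sum_congr rfl h1]
  have h2 := Finset.sum_range_succ
    (fun j => (∏ i ∈ Finset.range j, (φ ^ i) g) * (φ ^ j) x) n
  have h3 := Finset.sum_range_succ'
    (fun j => (∏ i ∈ Finset.range j, (φ ^ i) g) * (φ ^ j) x) n
  have h4 : (∏ i ∈ Finset.range n, (φ ^ i) g) * (φ ^ n) x =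
      (∏ i ∈ Finset.range 0, (φ ^ i) g) * (φ ^ 0) x := by
    rw [hN, hφ, pow_zero, Finset.prod_range_zero]
  rw [h2, h4] at h3
  exact (add_right_cancel h3).symm

end Pool.Agent.Helper96.AL
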