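import Mathlib

/-!
PROJECT AL, piece L6. Making `z^p` an eigenvector (field level).

Notation `N f = ∏_{l<p} (σ^l) f`; `N` is multiplicative, `N (t f) = t (N f)` (from `t σ = σ^k t`, so
`t σ^l = σ^(k l) t`, reindexing by `l ↦ k l` mod `p`, `σ^p = 1`), `N a = a^p` for `σ a = a`.
By induction `t^j a = N (c_j) * a^(k^j)` with `c_0 = 1`, `c_(j+1) = t(c_j) * c^(k^j)`.
Let `s m = 1` mod `p` (`m < p`), `k_j = s k^(m-j)` for `j < m`, `b = ∏_{j<m} (t^j a)^(k_j)`.
Then `b = N (∏ c_j^(k_j)) * a^(∑ k_j k^j)` and `∑ k_j k^j = m s k^m = 1 + p r` (mod `p` it is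
`m s = 1` since `k^m = 1`), so `b = N f * a` with `f = ∏ c_j^(k_j) * a^r`.
`t b = ∏ (t^(j+1) a)^(k_j)` and `b^k = ∏ (t^j a)^(k k_j)` with `k k_(j+1) = k_j`; they differ only at
the ends: `t b * a^(s k^(m+1)) = b^k * (t^m a)^(s k) = b^k * a^(s k)`. As `p ∣ k^m - 1`,
`s k^(m+1) = s k + p w`, so `t b * (a^w)^p = b^k`: take `d = (a^w)⁻¹`.
-/

namespace Pool.Agent.Helper96.AL

theorem l6_comm {M : Type*} [Field M] (σ t : M ≃+* M) {k : ℕ}
    (hts : ∀ f, t (σ f) = (σ ^ k) (t f)) (l : ℕ) (f : M) :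
    t ((σ ^ l) f) = (σ ^ (k * l)) (t f) := by
  induction l generalizing f with
  | zero => simp
  | succ l ih =>
    rw [pow_succ, RingAut.mul_apply, ih, hts, ← RingAut.mul_apply, ← pow_add, Nat.mul_succ]

theorem l6_norm {M : Type*} [Field M] (σ t : M ≃+* M) {p k : ℕ} (hp : p.Prime)
    (hk : (k : ZMod p) ≠ 0) (hσ : σ ^ p = 1)
    (hts : ∀ f, t (σ f) = (σ ^ k) (t f)) (f : M) :
    t (∏ l ∈ Finset.range p, (σ ^ l) f) = ∏ l ∈ Finset.range p, (σ ^ l) (t f) := by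
  have : Fact p.Prime := ⟨hp⟩
  rw [map_prod]
  have hmod : ∀ n : ℕ, σ ^ n = σ ^ (n % p) := fun n => by
    conv_lhs => rw [← Nat.mod_add_div n p, pow_add, pow_mul, hσ, one_pow, mul_one]
  refine Finset.prod_bij (fun l _ => (k * l) % p) ?_ ?_ ?_ ?_
  · intro l _
    exact Finset.mem_range.mpr (Nat.mod_lt _ hp.pos)
  · intro a ha b hb hab
    have h1 : ((k * a : ℕ) : ZMod p) = ((k * b : ℕ) : ZMod p) :=
      (ZMod.natCast_eq_natCast_iff' _ _ _).mpr hab
    push_cast at h1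
    have h2 := mul_left_cancel₀ hk h1
    have h3 := (ZMod.natCast_eq_natCast_iff' _ _ _).mp h2
    rwa [Nat.mod_eq_of_lt (Finset.mem_range.mp ha), Nat.mod_eq_of_lt (Finset.mem_range.mp hb)] at h3
  · intro b hb
    refine ⟨((k : ZMod p)⁻¹ * (b : ZMod p)).val, Finset.mem_range.mpr (ZMod.val_lt _), ?_⟩
    have h1 : ((k * ((k : ZMod p)⁻¹ * (b : ZMod p)).val : ℕ) : ZMod p) = ((b : ℕ) : ZMod p) := by
      push_cast
      rw [ZMod.natCast_zmod_val, ← mul_assoc, mul_inv_cancel₀ hk, one_mul]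
    have h3 := (ZMod.natCast_eq_natCast_iff' _ _ _).mp h1
    rw [Nat.mod_eq_of_lt (Finset.mem_range.mp hb)] at h3
    exact h3
  · intro l _
    rw [l6_comm σ t hts, hmod (k * l)]

theorem l6_fix {M : Type*} [Field M] (σ : M ≃+* M) {a : M} (ha : σ a = a) (l : ℕ) :
    (σ ^ l) a = a := by
  induction l with
  | zero => simp
  | succ l ih => rw [pow_succ, RingAut.mul_apply, ha, ih]

theorem l6_Npow {M : Type*} [Field M] (σ : M ≃+* M) (p : ℕ) (f : M) (n : ℕ) :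
    (∏ l ∈ Finset.range p, (σ ^ l) f) ^ n = ∏ l ∈ Finset.range p, (σ ^ l) (f ^ n) := by
  rw [← Finset.prod_pow]
  exact Finset.prod_congr rfl fun l _ => (map_pow _ _ _).symm

theorem l6_Nmul {M : Type*} [Field M] (σ : M ≃+* M) (p : ℕ) (f g : M) :
    (∏ l ∈ Finset.range p, (σ ^ l) (f * g)) =
      (∏ l ∈ Finset.range p, (σ ^ l) f) * ∏ l ∈ Finset.range p, (σ ^ l) g := by
  rw [← Finset.prod_mul_distrib]
  exact Finset.prod_congr rfl fun l _ => map_mul _ _ _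

theorem l6_Nprod {M : Type*} [Field M] (σ : M ≃+* M) (p : ℕ) (m : ℕ) (g : ℕ → M) :
    (∏ l ∈ Finset.range p, (σ ^ l) (∏ j ∈ Finset.range m, g j)) =
      ∏ j ∈ Finset.range m, ∏ l ∈ Finset.range p, (σ ^ l) (g j) := by
  rw [Finset.prod_comm]
  exact Finset.prod_congr rfl fun l _ => map_prod _ _ _

theorem eigen_norm {M : Type*} [Field M] (σ t : M ≃+* M) {p m k : ℕ} (hp : p.Prime)
    (hm : 0 < m) (hmp : m < p) (hk : (k : ZMod p) ^ m = 1)
    (hσ : σ ^ p = 1) (ht : t ^ m = 1) (hts : ∀ f, t (σ f) = (σ ^ k) (t f))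
    (a c : M) (ha0 : a ≠ 0) (hc0 : c ≠ 0) (ha : σ a = a)
    (hc : t a = (∏ l ∈ Finset.range p, (σ ^ l) c) * a ^ k) :
    ∃ f d : M, f ≠ 0 ∧ d ≠ 0 ∧ σ d = d ∧
      t ((∏ l ∈ Finset.range p, (σ ^ l) f) * a)
        = ((∏ l ∈ Finset.range p, (σ ^ l) f) * a) ^ k * d ^ p := by
  have : Fact p.Prime := ⟨hp⟩
  have hk0 : (k : ZMod p) ≠ 0 := by
    intro h
    rw [h, zero_pow hm.ne'] at hk
    exact zero_ne_one hk
  have hN := l6_norm σ t hp hk0 hσ hts
  -- the elements `c_j`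
  have hcj : ∀ j : ℕ, ∃ x : M, x ≠ 0 ∧
      (t ^ j) a = (∏ l ∈ Finset.range p, (σ ^ l) x) * a ^ (k ^ j) := by
    intro j
    induction j with
    | zero => exact ⟨1, one_ne_zero, by simp⟩
    | succ j ih =>
      obtain ⟨x, hx0, hx⟩ := ih
      refine ⟨t x * c ^ (k ^ j), mul_ne_zero ((map_ne_zero t).mpr hx0) (pow_ne_zero _ hc0), ?_⟩
      rw [pow_succ', RingAut.mul_apply, hx, map_mul, hN, map_pow, hc, mul_pow, l6_Npow, l6_Nmul,
        ← pow_mul, ← pow_succ']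
      ring
  choose x hx0 hx using hcj
  -- the exponent `s`
  obtain ⟨s, r, hsr⟩ : ∃ s r : ℕ, m * s * k ^ m = 1 + p * r := by
    have hm0 : (m : ZMod p) ≠ 0 := by
      intro h
      rw [ZMod.natCast_eq_zero_iff] at h
      exact absurd (Nat.le_of_dvd hm h) (not_le.mpr hmp)
    set s := ((m : ZMod p)⁻¹).val with hs
    have h1 : ((m * s * k ^ m : ℕ) : ZMod p) = ((1 : ℕ) : ZMod p) := by
      push_cast
      rw [hk, mul_one, hs, ZMod.natCast_zmod_val, mul_inv_cancel₀ hm0]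
    have h2 : m * s * k ^ m % p = 1 := by
      rw [(ZMod.natCast_eq_natCast_iff' _ _ _).mp h1, Nat.mod_eq_of_lt hp.one_lt]
    exact ⟨s, m * s * k ^ m / p, by
      conv_lhs => rw [← Nat.mod_add_div (m * s * k ^ m) p, h2]⟩
  obtain ⟨w, hw⟩ : ∃ w : ℕ, s * k ^ (m + 1) = s * k + p * w := by
    have h1 : ((k ^ m : ℕ) : ZMod p) = ((1 : ℕ) : ZMod p) := by
      push_cast
      exact hk
    have h2 : k ^ m % p = 1 := by
      rw [(ZMod.natCast_eq_natCast_iff' _ _ _).mp h1, Nat.mod_eq_of_lt hp.one_lt]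
    refine ⟨s * k * (k ^ m / p), ?_⟩
    have h3 : k ^ m = 1 + p * (k ^ m / p) := by
      conv_lhs => rw [← Nat.mod_add_div (k ^ m) p, h2]
    calc s * k ^ (m + 1) = s * k * k ^ m := by rw [pow_succ]; ring
      _ = s * k * (1 + p * (k ^ m / p)) := by rw [← h3]
      _ = s * k + p * (s * k * (k ^ m / p)) := by ring
  have ha_pow : ∀ n : ℕ, (∏ l ∈ Finset.range p, (σ ^ l) (a ^ n)) = a ^ (p * n) := by
    intro n
    rw [Finset.prod_congr rfl fun l _ => by rw [map_pow, l6_fix σ ha l], Finset.prod_const,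
      Finset.card_range, ← pow_mul, mul_comm]
  set f : M := (∏ j ∈ Finset.range m, x j ^ (s * k ^ (m - j))) * a ^ r with hf
  have hf0 : f ≠ 0 := mul_ne_zero
    (Finset.prod_ne_zero_iff.mpr fun j _ => pow_ne_zero _ (hx0 j)) (pow_ne_zero _ ha0)
  have hb : (∏ l ∈ Finset.range p, (σ ^ l) f) * a =
      ∏ j ∈ Finset.range m, ((t ^ j) a) ^ (s * k ^ (m - j)) := by
    have h1 : ∀ j ∈ Finset.range m, ((t ^ j) a) ^ (s * k ^ (m - j)) =
        (∏ l ∈ Finset.range p, (σ ^ l) (x j ^ (s * k ^ (m - j)))) * a ^ (s * k ^ m) := by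
      intro j hj
      have hj' : j ≤ m := (Finset.mem_range.mp hj).le
      rw [hx j, mul_pow, l6_Npow, ← pow_mul]
      congr 2
      calc k ^ j * (s * k ^ (m - j)) = s * (k ^ j * k ^ (m - j)) := by ring
        _ = s * k ^ m := by rw [← pow_add, Nat.add_sub_cancel' hj']
    rw [Finset.prod_congr rfl h1, Finset.prod_mul_distrib, Finset.prod_const, Finset.card_range,
      hf, l6_Nmul, l6_Nprod, ha_pow, ← pow_mul, mul_assoc, ← pow_succ]
    congr 2
    calc p * r + 1 = m * s * k ^ m := by rw [hsr]; ring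
      _ = s * k ^ m * m := by ring
  set g : ℕ → M := fun j => ((t ^ j) a) ^ (s * k ^ (m + 1 - j)) with hg
  have htb : t (∏ j ∈ Finset.range m, ((t ^ j) a) ^ (s * k ^ (m - j))) =
      ∏ j ∈ Finset.range m, g (j + 1) := by
    rw [map_prod]
    refine Finset.prod_congr rfl fun j _ => ?_
    rw [hg, map_pow]
    simp only
    rw [pow_succ', RingAut.mul_apply, Nat.add_sub_add_right]
  have hbk : (∏ j ∈ Finset.range m, ((t ^ j) a) ^ (s * k ^ (m - j))) ^ k =
      ∏ j ∈ Finset.range m, g j := by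
    rw [← Finset.prod_pow]
    refine Finset.prod_congr rfl fun j hj => ?_
    have hj' : j ≤ m := (Finset.mem_range.mp hj).le
    rw [hg]
    simp only
    rw [← pow_mul, Nat.succ_sub hj', pow_succ, mul_assoc]
  have hends : (∏ j ∈ Finset.range m, g (j + 1)) * g 0 = (∏ j ∈ Finset.range m, g j) * g m := by
    rw [← Finset.prod_range_succ', Finset.prod_range_succ]
  have hg0 : g 0 = a ^ (s * k) * (a ^ w) ^ p := by
    rw [hg]
    simp only [pow_zero, Nat.sub_zero, RingAut.one_apply]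
    rw [hw, pow_add, mul_comm p w, pow_mul a w p]
  have hgm : g m = a ^ (s * k) := by
    rw [hg]
    simp only
    rw [ht, RingAut.one_apply, Nat.add_sub_cancel_left, pow_one]
  refine ⟨f, (a ^ w)⁻¹, hf0, inv_ne_zero (pow_ne_zero _ ha0), ?_, ?_⟩
  · rw [map_inv₀, map_pow, ha]
  · rw [hb, htb, hbk]
    rw [hg0, hgm] at hends
    have h1 : (∏ j ∈ Finset.range m, g (j + 1)) * (a ^ w) ^ p = ∏ j ∈ Finset.range m, g j := by
      have h2 : a ^ (s * k) ≠ 0 := pow_ne_zero _ ha0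
      apply mul_right_cancel₀ h2
      rw [← hends]
      ring
    rw [← h1, inv_pow, mul_assoc, mul_inv_cancel₀ (pow_ne_zero _ (pow_ne_zero _ ha0)), mul_one]

end Pool.Agent.Helper96.AL
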