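import Pool.Agent.Helper96.AL.L3
import Pool.Agent.Helper96.AL.L4
import Pool.Agent.Helper96.AL.L5
import Pool.Agent.Helper96.AL.L6

/-!
PROJECT AL, piece L7. A good `Z`: `τ Z` is conjugate to a multiple of `Z^k` by an element of `M`.

Proof. `z` from exists_z, field data from exists_FD. `z^p` commutes with `u`: `ι a = z^p`, `σ a = a`
(sig_fix, zpow_central). `τ z = ι c * z^k` (deg_comm). Taking `p`-th powers (mul_pow_k):
`ι (t a) = τ(z)^p = ι (N c) * z^(k p)`, so `t a = N c * a^k`. L6 gives `f, d`. `Z = ι f * z`: again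
`u Z = ζ Z u`, `Z^p = ι (N f * a) = ι b` (mul_pow_n), and conjugation by `Z` on `M` is `σ` again, so
`FD` holds for `Z` with the same `σ`, `t`. `τ Z = ι c' * Z^k`, `N c' * b^k = t b = b^k * d^p`,
`N (c'/d) = 1` (`N d = d^p`). Hilbert 90 for `σ^k` (order `p` by sig_p, sig_k_ne; the product over
`(σ^k)^j`, `j < p`, is the product over `σ^l`, reindexing) gives `g` with `(c'/d) * (σ^k) g = g`,
i.e. `c' = d g / (σ^k) g` and `τ Z = ι d * ι g * Z^k * (ι g)⁻¹` (sig_pow).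
-/

namespace Pool.Agent.Helper96.AL

universe v

variable {p m k : ℕ} {A : Type v} [DivisionRing A] {τ : A ≃+* A} {ζ u : A}

/-- `τ z = ι c * z^k` and the relation between `t a` and the norm of `c` -/
theorem l7_step {z : A} {M : Type v} [Field M] {ι : M →+* A} {σ t : M ≃+* M}
    (hF : FD p m k τ ζ u z ι σ t) (a : M) (ha : ι a = z ^ p) :
    ∃ c : M, c ≠ 0 ∧ τ z = ι c * z ^ k ∧
      t a = (∏ l ∈ Finset.range p, (σ ^ l) c) * a ^ k := by
  have hinj := ι.injective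
  have hzk : z ^ k ≠ 0 := pow_ne_zero _ hF.z0
  have h1 : u * τ z = ζ ^ k * τ z * u := by
    have h2 := congrArg τ hF.hz
    rw [map_mul, map_mul, map_mul, hF.ad.τu, hF.ad.τζ] at h2
    exact h2
  obtain ⟨c, hc⟩ := (hF.rng _).1 (deg_comm hF.ad hF.z0 hF.hz h1)
  have hτz : τ z = ι c * z ^ k := by
    rw [hc, mul_assoc, inv_mul_cancel₀ hzk, mul_one]
  have hτz0 : τ z ≠ 0 := fun h0 => hF.z0 (by
    have := congrArg τ.symm h0
    rwa [τ.symm_apply_apply, map_zero] at this)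
  have hc0 : c ≠ 0 := by
    intro h0
    rw [h0, map_zero, zero_mul] at hτz
    exact hτz0 hτz
  refine ⟨c, hc0, hτz, ?_⟩
  apply hinj
  have h3 : (τ z) ^ p = ι (t a) := by
    rw [hF.ht, ha, map_pow]
  have h4 : z ^ (k * p) = ι (a ^ k) := by
    rw [map_pow, ha, ← pow_mul, mul_comm]
  rw [← h3, hτz, mul_pow_k hF c, h4, ← map_mul]

/-- powers of `ι g * z^k` without reindexing -/
theorem l7_pow {z : A} {M : Type v} [Field M] {ι : M →+* A} {σ t : M ≃+* M}
    (hF : FD p m k τ ζ u z ι σ t) (g : M) (n : ℕ) :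
    (ι g * z ^ k) ^ n = ι (∏ l ∈ Finset.range n, ((σ ^ k) ^ l) g) * z ^ (k * n) := by
  induction n with
  | zero => simp
  | succ n ih =>
    have h1 : (σ ^ k) (∏ l ∈ Finset.range n, ((σ ^ k) ^ l) g) =
        ∏ l ∈ Finset.range n, ((σ ^ k) ^ (l + 1)) g := by
      rw [map_prod]
      refine Finset.prod_congr rfl fun l _ => ?_
      rw [pow_succ' (σ ^ k) l]
      rfl
    have h2 : ∏ l ∈ Finset.range (n + 1), ((σ ^ k) ^ l) g =
        g * ∏ l ∈ Finset.range n, ((σ ^ k) ^ (l + 1)) g := by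
      rw [Finset.prod_range_succ', pow_zero, mul_comm]
      rfl
    rw [pow_succ', ih, h2, ← h1, map_mul, mul_assoc, ← mul_assoc (z ^ k), ← sig_pow hF,
      mul_assoc, ← mul_assoc, ← pow_add]
    congr 2
    ring

theorem l7_reindex {z : A} {M : Type v} [Field M] {ι : M →+* A} {σ t : M ≃+* M}
    (hF : FD p m k τ ζ u z ι σ t) (g : M) :
    ∏ l ∈ Finset.range p, ((σ ^ k) ^ l) g = ∏ l ∈ Finset.range p, (σ ^ l) g := by
  apply ι.injective
  have h1 := l7_pow hF g p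
  rw [mul_pow_k hF g] at h1
  exact (mul_right_cancel₀ (pow_ne_zero _ hF.z0) h1).symm

theorem exists_Z (h : AD p m k τ ζ u) :
    ∃ (Z : A) (M : Type v) (_ : Field M) (ι : M →+* A) (σ t : M ≃+* M) (g d : M),
      FD p m k τ ζ u Z ι σ t ∧ g ≠ 0 ∧ d ≠ 0 ∧ σ d = d ∧
        τ Z = ι d * ι g * Z ^ k * (ι g)⁻¹ := by
  obtain ⟨z, hz0, hz⟩ := exists_z h
  obtain ⟨M, F, ι, σ, t, hF⟩ := exists_FD h hz0 hz
  have hinj := ι.injective
  have hzc : Cen (z ^ p) := zpow_central h hz0 hz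
  obtain ⟨a, ha⟩ := (hF.rng (z ^ p)).1 (hzc u)
  have hσa : σ a = a := (sig_fix hF a).2 (by rw [ha]; exact hzc)
  have ha0 : a ≠ 0 := by
    intro h0
    rw [h0, map_zero] at ha
    exact pow_ne_zero _ hz0 ha.symm
  obtain ⟨c, hc0, -, hta⟩ := l7_step hF a ha
  obtain ⟨f, d, hf0, hd0, hσd, hfd⟩ := eigen_norm σ t h.hp h.hm h.hmp h.hk (sig_p hF) (t_m hF)
    (t_sig hF) a c ha0 hc0 hσa hta
  have hιf0 : ι f ≠ 0 := (map_ne_zero ι).2 hf0
  have hfu : ι f * u = u * ι f := (hF.rng (ι f)).2 ⟨f, rfl⟩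
  have hZ0 : ι f * z ≠ 0 := mul_ne_zero hιf0 hz0
  have hF' : FD p m k τ ζ u (ι f * z) ι σ t := by
    refine { ad := h, z0 := hZ0, hz := ?_, rng := hF.rng, hσ := ?_, ht := hF.ht }
    · rw [← mul_assoc u, ← hfu, mul_assoc, hz, ← mul_assoc ζ, h.ζc (ι f)]
      simp only [mul_assoc]
    · intro g
      rw [← mul_assoc, ← map_mul, mul_comm, map_mul, mul_assoc, hF.hσ, ← mul_assoc]
  have hb : ι ((∏ l ∈ Finset.range p, (σ ^ l) f) * a) = (ι f * z) ^ p := by
    rw [mul_pow_n hF f p, map_mul, ha]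
  have hb0 : (∏ l ∈ Finset.range p, (σ ^ l) f) * a ≠ 0 := by
    intro h0
    rw [h0, map_zero] at hb
    exact pow_ne_zero _ hZ0 hb.symm
  obtain ⟨c', hc'0, hτZ, htb⟩ := l7_step hF' _ hb
  have hN : ∏ l ∈ Finset.range p, (σ ^ l) c' = d ^ p := by
    rw [hfd, mul_comm] at htb
    exact (mul_right_cancel₀ (pow_ne_zero _ hb0) htb).symm
  have hσl : ∀ l : ℕ, (σ ^ l) d = d := by
    intro l
    induction l with
    | zero => rfl
    | succ l ih =>
      rw [pow_succ']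
      change σ ((σ ^ l) d) = d
      rw [ih, hσd]
  have hNd : ∏ l ∈ Finset.range p, (σ ^ l) (c' / d) = 1 := by
    have h1 : ∀ l ∈ Finset.range p, (σ ^ l) (c' / d) = (σ ^ l) c' / d := by
      intro l _
      rw [map_div₀, hσl]
    rw [Finset.prod_congr rfl h1, Finset.prod_div_distrib, hN, Finset.prod_const,
      Finset.card_range, div_self (pow_ne_zero _ hd0)]
  obtain ⟨y, hy0, hy⟩ := hilbert90 (σ ^ k) p h.hp.pos
    (by rw [← pow_mul, mul_comm, pow_mul, sig_p hF, one_pow]) (sig_k_ne hF) (c' / d)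
    (by rw [l7_reindex hF]; exact hNd)
  refine ⟨ι f * z, M, F, ι, σ, t, y, d, hF', hy0, hd0, hσd, ?_⟩
  have hιy0 : ι y ≠ 0 := (map_ne_zero ι).2 hy0
  have h5 : c' * (σ ^ k) y = d * y := by
    rw [div_mul_eq_mul_div, div_eq_iff hd0] at hy
    rw [hy, mul_comm]
  have h6 := sig_pow hF' k y
  have h7 : τ (ι f * z) * ι y = ι d * ι y * (ι f * z) ^ k := by
    rw [hτZ, mul_assoc, ← h6, ← mul_assoc, ← map_mul, h5, map_mul]
  rw [← h7, mul_assoc, mul_inv_cancel₀ hιy0, mul_one]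

end Pool.Agent.Helper96.AL
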