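import Mathlib

/-!
PROJECT AL, piece T5. Albert's theorem, characteristic 5: if `u` is outside `F` and `u^5` in `F`
there is `w` with `u w u⁻¹ = w + 1`.

Proof: `δ x = u x - x u` satisfies `δ^5 = ad (u^5) = 0` (characteristic 5: left and right
multiplication by `u` commute, `(L - R)^5 = L^5 - R^5`, `sub_pow_char_of_commute`), and `δ ≠ 0`. So
there is `x` with `δ x ≠ 0` and `δ (δ x) = 0` (last nonzero iterate). Put `v = δ x`, which commutes
with `u`, and `w = x v⁻¹ u`; `δ w = δ(x) v⁻¹ u = u`, i.e. `u w = (w + 1) u`.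
-/

namespace Pool.Agent.Helper96.AL

theorem albert_five {F D : Type*} [Field F] [CharP F 5] [DivisionRing D] [Algebra F D]
    (hcen : ∀ x : D, (∀ y, x * y = y * x) → ∃ c : F, algebraMap F D c = x)
    {u : D} (hu : ∀ c : F, u ≠ algebraMap F D c)
    (hu5 : ∃ c : F, u ^ 5 = algebraMap F D c) :
    ∃ w : D, u * w * u⁻¹ = w + 1 := by
  have : Fact (Nat.Prime 5) := ⟨by norm_num⟩
  have : CharP (Module.End F D) 5 :=
    charP_of_injective_algebraMap (algebraMap F (Module.End F D)).injective 5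
  obtain ⟨c, hc⟩ := hu5
  set δ : Module.End F D := LinearMap.mulLeft F u - LinearMap.mulRight F u with hδ
  have hδa : ∀ x : D, δ x = u * x - x * u := by
    intro x
    simp [hδ]
  have h5 : δ ^ 5 = 0 := by
    have h1 : δ ^ 5 = (LinearMap.mulLeft F u) ^ 5 - (LinearMap.mulRight F u) ^ 5 :=
      sub_pow_char_of_commute 5 (LinearMap.commute_mulLeft_right (R := F) u u)
    rw [h1, LinearMap.pow_mulLeft, LinearMap.pow_mulRight, hc]
    ext x
    simp [Algebra.commutes]
  have h1 : δ ^ 1 ≠ 0 := by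
    intro h0
    rw [pow_one] at h0
    obtain ⟨d, hd⟩ := hcen u (fun y => by
      have := hδa y
      rw [h0, LinearMap.zero_apply] at this
      exact (sub_eq_zero.mp this.symm))
    exact hu d hd.symm
  classical
  have hex : ∃ k, δ ^ k = 0 := ⟨5, h5⟩
  obtain ⟨k, hk, hmin⟩ : ∃ k, δ ^ k = 0 ∧ ∀ j < k, δ ^ j ≠ 0 :=
    ⟨Nat.find hex, Nat.find_spec hex, fun j hj => Nat.find_min hex hj⟩
  have hk2 : 2 ≤ k := by
    by_contra hlt
    have h01 : k = 0 ∨ k = 1 := by omega
    rcases h01 with h | h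
    · rw [h, pow_zero] at hk
      exact one_ne_zero hk
    · rw [h] at hk
      exact h1 hk
  obtain ⟨m, rfl⟩ : ∃ m, k = m + 2 := ⟨k - 2, by omega⟩
  have hm : δ ^ (m + 1) ≠ 0 := hmin (m + 1) (by omega)
  obtain ⟨y, hy⟩ : ∃ y, (δ ^ (m + 1)) y ≠ 0 := by
    by_contra hcon
    push Not at hcon
    exact hm (LinearMap.ext hcon)
  set x : D := (δ ^ m) y with hx
  have hv : δ x ≠ 0 := by
    have : (δ ^ (m + 1)) y = δ x := by
      rw [pow_succ', Module.End.mul_apply]
    rwa [← this]
  have hvv : δ (δ x) = 0 := by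
    have : (δ ^ (m + 2)) y = δ (δ x) := by
      rw [pow_succ', pow_succ', Module.End.mul_apply, Module.End.mul_apply]
    rw [← this, hk, LinearMap.zero_apply]
  set v : D := δ x with hvdef
  have hcomm : u * v = v * u := by
    have := hδa v
    rw [hvv] at this
    exact sub_eq_zero.mp this.symm
  have hu0 : u ≠ 0 := by
    intro h
    exact hu 0 (by rw [h, map_zero])
  have hcomm' : u * v⁻¹ = v⁻¹ * u := by
    have hC : Commute u v := hcomm
    exact hC.inv_right₀
  have hvx : u * x = v + x * u := by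
    have := hδa x
    rw [hvdef, this]
    abel
  refine ⟨x * v⁻¹ * u, ?_⟩
  rw [eq_comm, ← mul_inv_eq_iff_eq_mul₀ (inv_ne_zero hu0), inv_inv]
  have hstep : u * (x * v⁻¹ * u) = u + x * v⁻¹ * u * u := by
    calc u * (x * v⁻¹ * u) = (u * x) * v⁻¹ * u := by simp only [mul_assoc]
      _ = (v + x * u) * v⁻¹ * u := by rw [hvx]
      _ = v * v⁻¹ * u + x * (u * v⁻¹) * u := by rw [add_mul, add_mul]; simp only [mul_assoc]
      _ = u + x * v⁻¹ * u * u := by
          rw [mul_inv_cancel₀ hv, one_mul, hcomm']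
          simp only [mul_assoc]
  rw [hstep, add_mul, one_mul, add_comm]

end Pool.Agent.Helper96.AL
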